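import Mathlib

/-!
# Tangled versus quasi-tangled labelings of inflated rooted trees

For every inflated rooted tree poset `P` with deflated leaves and at least two elements, the
number of tangled labelings of `P` is at most the number of quasi-tangled labelings of `P`.
-/

namespace Pool.Agent.Results.MP_0963f7_co.TangledLeQuasi

open Classical

set_option linter.unusedSectionVars false

/-! ### Definitions used in the statement -/

/-- A labeling of a finite poset with `n` elements: a bijection onto `{1, ..., n}`. -/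
def IsLabeling {P : Type*} [Fintype P] (L : P → ℕ) : Prop :=
  Set.BijOn L Set.univ (Set.Icc 1 (Fintype.card P))

/-- A linear extension: labels increase strictly along the order. -/
def IsLinExt {P : Type*} [PartialOrder P] (L : P → ℕ) : Prop :=
  ∀ x y, x < y → L x < L y

/-- The `L`-successor of `v`: the element of smallest label strictly above `v`
(and `v` itself if `v` is maximal). -/
noncomputable def lSucc {P : Type*} [PartialOrder P] (L : P → ℕ) (v : P) : P :=
  if h : ∃ z, v < z ∧ ∀ w, v < w → L z ≤ L w then h.choose else v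

/-- Extended promotion.  The promotion chain is `v₁, v₂, ...` with `L v₁ = 1` and
`v_{i+1} = lSucc L v_i`. -/
noncomputable def promotion {P : Type*} [Fintype P] [PartialOrder P] (L : P → ℕ) (x : P) : ℕ :=
  if ∃ v, L v = 1 ∧ ∃ i : ℕ, (lSucc L)^[i] v = x then
    if ∃ z, x < z then L (lSucc L x) - 1 else Fintype.card P
  else L x - 1

/-- The sorting time: least `k` such that `∂^k L` is a linear extension. -/
noncomputable def sortingTime {P : Type*} [Fintype P] [PartialOrder P] (L : P → ℕ) : ℕ :=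
  sInf {k | IsLinExt (promotion^[k] L)}

/-- A rooted tree poset: a unique maximal element, and every other element is covered by
exactly one element. -/
def IsRootedTree (Q : Type*) [PartialOrder Q] : Prop :=
  (∃! q : Q, IsMax q) ∧ ∀ q : Q, ¬ IsMax q → ∃! c : Q, q ⋖ c

/-- `φ : P → Q` exhibits `P` as an inflation of `Q`. -/
def IsInflation {P Q : Type*} [PartialOrder P] [PartialOrder Q] (φ : P → Q) : Prop :=
  Function.Surjective φ ∧
  (∀ q : Q, ∃! x : P, φ x = q ∧ ∀ y : P, φ y = q → ¬ y < x) ∧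
  (∀ x y : P, φ x ≠ φ y → (x < y ↔ φ x < φ y))

/-- `P` is an inflated rooted tree poset with deflated leaves. -/
def IsInflatedRootedTree (P : Type*) [PartialOrder P] : Prop :=
  ∃ (Q : Type) (_ : Fintype Q) (_ : PartialOrder Q) (φ : P → Q),
    IsRootedTree Q ∧ IsInflation φ ∧ ∀ q : Q, IsMin q → ∃! x : P, φ x = q

/-! ### Promotion with respect to a relation -/

variable {P : Type*}

noncomputable def succR (r : P → P → Prop) (L : P → ℕ) (v : P) : P :=
  if h : ∃ z, r v z ∧ ∀ w, r v w → L z ≤ L w then h.choose else v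

noncomputable def promR [Fintype P] (r : P → P → Prop) (L : P → ℕ) (x : P) : ℕ :=
  if ∃ v, L v = 1 ∧ ∃ i : ℕ, (succR r L)^[i] v = x then
    if ∃ z, r x z then L (succR r L x) - 1 else Fintype.card P
  else L x - 1

lemma promotion_eq [Fintype P] [PartialOrder P] (L : P → ℕ) :
    promotion L = promR (· < ·) L := rfl

inductive Slides (r : P → P → Prop) : (P → ℕ) → (P → ℕ) → Prop
  | stop {L : P → ℕ} {v : P} (hv : L v = 1) (hmax : ∀ z, ¬ r v z) : Slides r L L
  | step {L M : P → ℕ} {v z : P} (hv : L v = 1) (hz : r v z)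
      (hmin : ∀ w, r v w → L z ≤ L w)
      (h : Slides r (L ∘ Equiv.swap v z) M) : Slides r L M

/-- the final relabeling -/
noncomputable def shift [Fintype P] (M : P → ℕ) (x : P) : ℕ :=
  if M x = 1 then Fintype.card P else M x - 1

section basic
variable [Fintype P]

lemma IsLabeling.inj {L : P → ℕ} (h : IsLabeling L) : Function.Injective L := by
  intro x y hxy
  exact h.injOn (Set.mem_univ _) (Set.mem_univ _) hxy

lemma IsLabeling.one_le {L : P → ℕ} (h : IsLabeling L) (x : P) : 1 ≤ L x :=
  (h.mapsTo (Set.mem_univ x)).1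

lemma IsLabeling.le_card {L : P → ℕ} (h : IsLabeling L) (x : P) : L x ≤ Fintype.card P :=
  (h.mapsTo (Set.mem_univ x)).2

lemma IsLabeling.exists_eq {L : P → ℕ} (h : IsLabeling L) {k : ℕ} (h1 : 1 ≤ k)
    (h2 : k ≤ Fintype.card P) : ∃ x, L x = k := by
  obtain ⟨x, -, hx⟩ := h.surjOn (show k ∈ Set.Icc 1 (Fintype.card P) from ⟨h1, h2⟩)
  exact ⟨x, hx⟩

lemma IsLabeling.comp {L : P → ℕ} (h : IsLabeling L) (e : Equiv.Perm P) :
    IsLabeling (L ∘ e) :=
  Set.BijOn.comp h (Set.bijOn_univ.mpr e.bijective)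

lemma Slides.labeling {r : P → P → Prop} {L M : P → ℕ} (h : Slides r L M)
    (hL : IsLabeling L) : IsLabeling M := by
  induction h with
  | stop hv hmax => exact hL
  | step hv hz hmin h ih => exact ih (hL.comp _)

lemma shift_labeling {M : P → ℕ} (h : IsLabeling M) : IsLabeling (shift M) := by
  refine ⟨?_, ?_, ?_⟩
  · intro x _
    have h1 := h.one_le x
    have h2 := h.le_card x
    unfold shift
    split_ifs with hx
    · exact ⟨by omega, le_refl _⟩
    · exact ⟨by omega, by omega⟩
  · intro x _ y _ hxy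
    have h1 := h.one_le x
    have h2 := h.le_card x
    have h3 := h.one_le y
    have h4 := h.le_card y
    apply h.inj
    simp only [shift] at hxy
    split_ifs at hxy with hx hy hy <;> omega
  · intro k hk
    obtain ⟨hk1, hk2⟩ := hk
    rcases Nat.eq_or_lt_of_le hk2 with h5 | h5
    · obtain ⟨x, hx⟩ := h.exists_eq (le_refl 1) (by omega)
      exact ⟨x, Set.mem_univ _, by simp [shift, hx, h5]⟩
    · obtain ⟨x, hx⟩ := h.exists_eq (k := k + 1) (by omega) (by omega)
      refine ⟨x, Set.mem_univ _, ?_⟩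
      simp only [shift, hx]
      rw [if_neg (by omega)]
      omega

lemma shift_inj {M1 M2 : P → ℕ} (h1 : IsLabeling M1) (h2 : IsLabeling M2) {x y : P}
    (h : shift M1 x = shift M2 y) : M1 x = M2 y := by
  have a1 := h1.one_le x
  have a2 := h1.le_card x
  have a3 := h2.one_le y
  have a4 := h2.le_card y
  simp only [shift] at h
  split_ifs at h with hx hy hy <;> omega

end basic

/-! ### Successors -/

section succ
variable [Fintype P] {r : P → P → Prop}

lemma exists_argmin (r : P → P → Prop) (L : P → ℕ) {v : P} (h : ∃ z, r v z) :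
    ∃ z, r v z ∧ ∀ w, r v w → L z ≤ L w := by
  obtain ⟨z0, hz0⟩ := h
  obtain ⟨z, hz, hmin⟩ := Finset.exists_min_image (Finset.univ.filter fun z => r v z) L
    ⟨z0, by simp [hz0]⟩
  refine ⟨z, by simpa using hz, fun w hw => hmin w (by simpa using hw)⟩

lemma succR_spec (L : P → ℕ) {v : P} (h : ∃ z, r v z) :
    r v (succR r L v) ∧ ∀ w, r v w → L (succR r L v) ≤ L w := by
  have h' := exists_argmin r L h
  unfold succR
  rw [dif_pos h']
  exact h'.choose_spec

lemma succR_eq {L : P → ℕ} (hL : Function.Injective L) {v z : P} (hz : r v z)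
    (hmin : ∀ w, r v w → L z ≤ L w) : succR r L v = z := by
  have h := succR_spec (r := r) L ⟨z, hz⟩
  exact hL (le_antisymm (h.2 z hz) (hmin _ h.1))

lemma succR_max {L : P → ℕ} {v : P} (h : ∀ z, ¬ r v z) : succR r L v = v := by
  unfold succR
  rw [dif_neg]
  rintro ⟨z, hz, -⟩
  exact h z hz

end succ


/-! ### Basic facts on slides -/

structure Good [PartialOrder P] (r : P → P → Prop) : Prop where
  lt : ∀ {v z}, r v z → v < z
  trans : ∀ {a b c}, r a b → r b c → r a c

section slides
variable [Fintype P] [PartialOrder P] {r : P → P → Prop}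

lemma slides_exists (hr : Good r) (v : P) :
    ∀ L : P → ℕ, L v = 1 → ∃ M, Slides r L M := by
  induction v using (wellFounded_gt (α := P)).induction with
  | _ v ih =>
    intro L hv
    by_cases h : ∃ z, r v z
    · obtain ⟨z, hz, hmin⟩ := exists_argmin r L h
      obtain ⟨M, hM⟩ := ih z (hr.lt hz) (L ∘ Equiv.swap v z) (by simp [hv])
      exact ⟨M, .step hv hz hmin hM⟩
    · push Not at h
      exact ⟨L, .stop hv h⟩

lemma Slides.hole {L M : P → ℕ} (h : Slides r L M) : ∃ v, M v = 1 ∧ ∀ z, ¬ r v z := by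
  induction h with
  | stop hv hmax => exact ⟨_, hv, hmax⟩
  | step hv hz hmin h ih => exact ih

lemma swap_apply_other {L : P → ℕ} {v z u : P} (h1 : u ≠ v) (h2 : u ≠ z) :
    (L ∘ Equiv.swap v z) u = L u := by
  simp [Equiv.swap_apply_of_ne_of_ne h1 h2]

lemma swap_apply_l {L : P → ℕ} {v z : P} : (L ∘ Equiv.swap v z) v = L z := by simp

lemma swap_apply_r {L : P → ℕ} {v z : P} : (L ∘ Equiv.swap v z) z = L v := by simp

/-- elements not above the hole are not moved -/
lemma Slides.fixed (hr : Good r) {L M : P → ℕ} (h : Slides r L M) :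
    IsLabeling L → ∀ v u, L v = 1 → ¬ r v u → u ≠ v → M u = L u := by
  induction h with
  | stop hv hmax => intros; rfl
  | @step L M v0 z hv hz hmin h ih =>
    intro hL v u hv1 hnu huv
    have hvv : v = v0 := hL.inj (by rw [hv, hv1])
    subst hvv
    have huz : u ≠ z := by
      rintro rfl; exact hnu hz
    have h1 := ih (hL.comp _) z u (by rw [swap_apply_r]; exact hv)
      (fun h' => hnu (hr.trans hz h')) huz
    rw [h1, swap_apply_other huv huz]

/-- labels only move down -/
lemma Slides.source (hr : Good r) {L M : P → ℕ} (h : Slides r L M) :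
    ∀ b, M b ≠ 1 → ∃ b', (b' = b ∨ r b b') ∧ L b' = M b := by
  induction h with
  | stop hv hmax => intro b _; exact ⟨b, Or.inl rfl, rfl⟩
  | @step L M v z hv hz hmin h ih =>
    intro b hb
    obtain ⟨b1, hb1, hb2⟩ := ih b hb
    by_cases h1 : b1 = v
    · subst h1
      rw [swap_apply_l] at hb2
      rcases hb1 with rfl | hb1
      · exact ⟨z, Or.inr hz, hb2⟩
      · exact ⟨z, Or.inr (hr.trans hb1 hz), hb2⟩
    · by_cases h2 : b1 = z
      · subst h2
        rw [swap_apply_r] at hb2
        exact absurd (hb2.symm.trans hv) hb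
      · rw [swap_apply_other h1 h2] at hb2
        exact ⟨b1, hb1, hb2⟩

lemma Slides.min_eq (hr : Good r) {L M : P → ℕ} (h : Slides r L M) (hL : IsLabeling L)
    {a b : P} (ha : ∀ w, ¬ r w a) (hb : r a b) (hlt : L b < M a) : L a = M a := by
  cases h with
  | stop hv hmax => rfl
  | @step _ _ v z hv hz hmin h =>
    by_cases hav : a = v
    · subst hav
      have haz : a ≠ z := (hr.lt hz).ne
      have h1 := h.fixed hr (hL.comp _) z a (by rw [swap_apply_r]; exact hv) (ha z) haz
      rw [swap_apply_l] at h1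
      have := hmin b hb
      omega
    · have h' : Slides r L M := .step hv hz hmin h
      exact (h'.fixed hr hL v a hv (ha v) hav).symm

lemma Slides.two (hr : Good r) {L M : P → ℕ} (h : Slides r L M) (hL : IsLabeling L)
    (hn : 2 ≤ Fintype.card P) {u : P} (hu : M u = 2) : L u = 1 ∨ L u = 2 := by
  obtain ⟨c, hc⟩ := hL.exists_eq (k := 2) (by norm_num) hn
  have hM := h.labeling hL
  cases h with
  | stop hv hmax => exact Or.inr hu
  | @step _ _ v z hv hz hmin h =>
    have h' : Slides r L M := .step hv hz hmin h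
    by_cases huv : u = v
    · subst huv; exact Or.inl hv
    · right
      by_cases hzc : z = c
      · subst hzc
        exfalso
        have hvz : v ≠ z := (hr.lt hz).ne
        have h1 := h.fixed hr (hL.comp _) z v (by rw [swap_apply_r]; exact hv)
          (fun h'' => lt_asymm (hr.lt h'') (hr.lt hz)) hvz
        rw [swap_apply_l, hc] at h1
        exact huv (hM.inj (by rw [hu, h1]))
      · have hnc : ¬ r v c := by
          intro hvc
          have h1 := hmin c hvc
          have h2 := hL.one_le z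
          have h3 : L z ≠ 1 := by
            intro h3
            exact (hr.lt hz).ne (hL.inj (by rw [hv, h3]))
          have h4 : L z = L c := by omega
          exact hzc (hL.inj h4)
        have hcv : c ≠ v := by
          rintro rfl; omega
        have h1 := h'.fixed hr hL v c hv hnc hcv
        have : u = c := hM.inj (by rw [hu, h1, hc])
        rw [this, hc]

/-- sortedness is preserved along slides -/
lemma Slides.sorted (hr : Good r) {L M : P → ℕ} {s : ℕ} (h : Slides r L M) :
    IsLabeling L → (∀ x y, r x y → s < L x → L y ≠ 1 → L x < L y) →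
    (∀ x y, r x y → s < M x → M y ≠ 1 → M x < M y) := by
  induction h with
  | stop hv hmax => exact fun _ h => h
  | @step L M v z hv hz hmin h ih =>
    intro hL hI
    apply ih (hL.comp _)
    intro x y hxy hx hy
    have hvz : v ≠ z := (hr.lt hz).ne
    have hLz : L z ≠ 1 := fun h3 => hvz (hL.inj (by rw [hv, h3]))
    have hyz : y ≠ z := by
      rintro rfl
      rw [swap_apply_r] at hy
      exact hy hv
    have hxy' := (hr.lt hxy).ne
    by_cases hxz : x = z
    · subst hxz
      rw [swap_apply_r, hv]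
      have := (hL.comp (Equiv.swap v x)).one_le y
      omega
    · by_cases hxv : x = v
      · subst hxv
        rw [swap_apply_l, swap_apply_other hxy'.symm hyz]
        have h1 := hmin y hxy
        have h2 : L z ≠ L y := fun h => hyz (hL.inj h).symm
        omega
      · rw [swap_apply_other hxv hxz] at hx ⊢
        by_cases hyv : y = v
        · subst hyv
          rw [swap_apply_l]
          exact hI x z (hr.trans hxy hz) hx hLz
        · rw [swap_apply_other hyv hyz]
          exact hI x y hxy hx (fun h => hyv (hL.inj (by rw [h, hv])))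

/-- explicit form of the result of sliding -/
noncomputable def chainF (r : P → P → Prop) (L : P → ℕ) (v x : P) : ℕ :=
  if ∃ i : ℕ, (succR r L)^[i] v = x then
    if ∃ z, r x z then L (succR r L x) else 1
  else L x

lemma iterate_succR_max {L : P → ℕ} {v : P} (h : ∀ z, ¬ r v z) (i : ℕ) :
    (succR r L)^[i] v = v := by
  induction i with
  | zero => rfl
  | succ i ih => rw [Function.iterate_succ_apply, succR_max h, ih]

lemma iterate_succR_le (hr : Good r) (L : P → ℕ) (v : P) (i : ℕ) :
    v ≤ (succR r L)^[i] v := by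
  induction i with
  | zero => exact le_refl _
  | succ i ih =>
    rw [Function.iterate_succ_apply']
    by_cases h : ∃ z, r ((succR r L)^[i] v) z
    · exact ih.trans (hr.lt (succR_spec L h).1).le
    · push Not at h
      rw [succR_max h]; exact ih

lemma slides_chainF (hr : Good r) {L M : P → ℕ} (h : Slides r L M) :
    IsLabeling L → ∀ v, L v = 1 → ∀ x, M x = chainF r L v x := by
  induction h with
  | @stop L v0 hv hmax =>
    intro hL v hv1 x
    have hvv : v = v0 := hL.inj (by rw [hv, hv1])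
    subst hvv
    unfold chainF
    split_ifs with h1 h2
    · obtain ⟨i, hi⟩ := h1
      rw [iterate_succR_max hmax] at hi
      subst hi
      exact absurd h2 (by push Not; exact hmax)
    · obtain ⟨i, hi⟩ := h1
      rw [iterate_succR_max hmax] at hi
      subst hi; exact hv
    · rfl
  | @step L M v0 z hv hz hmin h ih =>
    intro hL v hv1 x
    have hvv : v = v0 := hL.inj (by rw [hv, hv1])
    subst hvv
    have hvz : v < z := hr.lt hz
    have hL' : IsLabeling (L ∘ Equiv.swap v z) := hL.comp _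
    rw [ih hL' z (by rw [swap_apply_r]; exact hv) x]
    set L' := L ∘ Equiv.swap v z with hL'def
    -- labels strictly above `z`
    have hab : ∀ w, z < w → L' w = L w := fun w hw =>
      swap_apply_other (hvz.trans hw).ne' hw.ne'
    have hsucc : ∀ u, z ≤ u → succR r L' u = succR r L u := by
      intro u hu
      by_cases hex : ∃ w, r u w
      · obtain ⟨h1, h2⟩ := succR_spec (r := r) L hex
        apply succR_eq hL'.inj h1
        intro w hw
        rw [hab w (hu.trans_lt (hr.lt hw)), hab _ (hu.trans_lt (hr.lt h1))]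
        exact h2 w hw
      · push Not at hex
        rw [succR_max hex, succR_max hex]
    have hit : ∀ i : ℕ, (succR r L')^[i] z = (succR r L)^[i] z := by
      intro i
      induction i with
      | zero => rfl
      | succ i ih2 =>
        rw [Function.iterate_succ_apply', Function.iterate_succ_apply', ih2,
          hsucc _ (iterate_succR_le hr L z i)]
    have hz1 : succR r L v = z := succR_eq hL.inj hz hmin
    have hchain : (∃ i : ℕ, (succR r L)^[i] v = x) ↔ (x = v ∨ ∃ i : ℕ, (succR r L)^[i] z = x) := by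
      constructor
      · rintro ⟨i, hi⟩
        cases i with
        | zero => left; exact hi.symm
        | succ i =>
          right
          rw [Function.iterate_succ_apply, hz1] at hi
          exact ⟨i, hi⟩
      · rintro (rfl | ⟨i, hi⟩)
        · exact ⟨0, rfl⟩
        · exact ⟨i + 1, by rw [Function.iterate_succ_apply, hz1, hi]⟩
    unfold chainF
    simp only [hit]
    by_cases hxv : x = v
    · subst hxv
      have hn : ¬ ∃ i : ℕ, (succR r L)^[i] z = x := by
        rintro ⟨i, hi⟩
        have := iterate_succR_le hr L z i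
        rw [hi] at this
        exact absurd (this.trans_lt hvz) (lt_irrefl _)
      rw [if_neg hn, if_pos (hchain.mpr (Or.inl rfl)), if_pos ⟨z, hz⟩, hz1]
      exact swap_apply_l
    · by_cases hc : ∃ i : ℕ, (succR r L)^[i] z = x
      · rw [if_pos hc, if_pos (hchain.mpr (Or.inr hc))]
        obtain ⟨i, hi⟩ := hc
        have hzx : z ≤ x := by rw [← hi]; exact iterate_succR_le hr L z i
        by_cases hex : ∃ w, r x w
        · rw [if_pos hex, if_pos hex, hsucc x hzx]
          exact hab _ (hzx.trans_lt (hr.lt (succR_spec L hex).1))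
        · rw [if_neg hex, if_neg hex]
      · rw [if_neg hc, if_neg (fun h' => (hchain.mp h').elim hxv hc)]
        have hxz : x ≠ z := by
          rintro rfl; exact hc ⟨0, rfl⟩
        exact swap_apply_other hxv hxz

/-- promotion is the shift of the result of sliding -/
lemma promR_eq_shift (hr : Good r) {L M : P → ℕ} (h : Slides r L M) (hL : IsLabeling L) :
    promR r L = shift M := by
  obtain ⟨v, hv⟩ : ∃ v, L v = 1 := by
    cases h with
    | stop hv hmax => exact ⟨_, hv⟩
    | step hv hz hmin h => exact ⟨_, hv⟩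
  funext x
  have hM := slides_chainF hr h hL v hv x
  have hex : (∃ v, L v = 1 ∧ ∃ i : ℕ, (succR r L)^[i] v = x) ↔
      ∃ i : ℕ, (succR r L)^[i] v = x := by
    constructor
    · rintro ⟨v', hv', hi⟩
      have : v' = v := hL.inj (by rw [hv, hv'])
      rwa [this] at hi
    · intro hi; exact ⟨v, hv, hi⟩
  unfold promR shift
  rw [hM]
  unfold chainF
  by_cases hc : ∃ i : ℕ, (succR r L)^[i] v = x
  · rw [if_pos (hex.mpr hc), if_pos hc]
    by_cases hz : ∃ z, r x z
    · rw [if_pos hz, if_pos hz]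
      obtain ⟨i, hi⟩ := hc
      have h1 : v ≤ x := by rw [← hi]; exact iterate_succR_le hr L v i
      have h2 : v < succR r L x := h1.trans_lt (hr.lt (succR_spec L hz).1)
      rw [if_neg]
      intro h3
      exact h2.ne (hL.inj (by rw [hv, h3]))
    · rw [if_neg hz, if_neg hz, if_pos rfl]
  · rw [if_neg (fun h' => hc (hex.mp h')), if_neg hc, if_neg]
    intro h3
    exact hc ⟨0, hL.inj (by rw [h3]; exact hv)⟩

lemma exists_slides (hr : Good r) [Nonempty P] {L : P → ℕ} (hL : IsLabeling L) :
    ∃ M, Slides r L M ∧ promR r L = shift M := by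
  obtain ⟨v, hv⟩ := hL.exists_eq (le_refl 1) Fintype.card_pos
  obtain ⟨M, hM⟩ := slides_exists hr v L hv
  exact ⟨M, hM, promR_eq_shift hr hM hL⟩

lemma promR_labeling (hr : Good r) [Nonempty P] {L : P → ℕ} (hL : IsLabeling L) :
    IsLabeling (promR r L) := by
  obtain ⟨M, hM, h⟩ := exists_slides hr hL
  rw [h]
  exact shift_labeling (hM.labeling hL)

lemma iter_labeling (hr : Good r) [Nonempty P] {L : P → ℕ} (hL : IsLabeling L) (t : ℕ) :
    IsLabeling ((promR r)^[t] L) := by
  induction t with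
  | zero => exact hL
  | succ t ih => rw [Function.iterate_succ_apply']; exact promR_labeling hr ih

def SortedAbove (r : P → P → Prop) (s : ℕ) (L : P → ℕ) : Prop :=
  ∀ x y, r x y → s < L x → L x < L y

lemma promR_sorted (hr : Good r) [Nonempty P] {L : P → ℕ} (hL : IsLabeling L) {s : ℕ}
    (h : SortedAbove r s L) : SortedAbove r (s - 1) (promR r L) := by
  obtain ⟨M, hM, he⟩ := exists_slides hr hL
  have hS := hM.sorted hr hL (s := s) (fun x y hxy hx _ => h x y hxy hx)
  have hML := hM.labeling hL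
  obtain ⟨v, hv, hmax⟩ := hM.hole
  rw [he]
  intro x y hxy hx
  have hx1 : M x ≠ 1 := by
    intro h1
    have : x = v := hML.inj (by rw [hv, h1])
    subst this
    exact hmax y hxy
  have a1 := hML.one_le x
  have a2 := hML.le_card x
  have a3 := hML.one_le y
  unfold shift at hx ⊢
  rw [if_neg hx1] at hx ⊢
  by_cases hy1 : M y = 1
  · rw [if_pos hy1]; omega
  · rw [if_neg hy1]
    have := hS x y hxy (by omega) hy1
    omega

lemma iter_sorted (hr : Good r) [Nonempty P] {L : P → ℕ} (hL : IsLabeling L) (t : ℕ) :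
    SortedAbove r (Fintype.card P - t) ((promR r)^[t] L) := by
  induction t with
  | zero =>
    intro x y _ hx
    have := hL.le_card x
    simp at hx
    omega
  | succ t ih =>
    rw [Function.iterate_succ_apply']
    have := promR_sorted hr (iter_labeling hr hL t) ih
    rwa [Nat.sub_sub] at this

end slides

/-! ### Words: promotion only sees the classes of an inflation -/

section words
variable [Fintype P] [PartialOrder P] {r₁ r₂ : P → P → Prop} {I : Type*}

def SameWord (g : P → I) (L₁ L₂ : P → ℕ) : Prop := ∀ x y, L₁ x = L₂ y → g x = g y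

def Cross (g : P → I) (r₁ r₂ : P → P → Prop) : Prop :=
  ∀ v v' z z', g v = g v' → g z = g z' → g v ≠ g z → (r₁ v z ↔ r₂ v' z')

lemma g_swap {g : P → I} {v z : P} (h : g v = g z) (x : P) : g (Equiv.swap v z x) = g x := by
  by_cases h1 : x = v
  · subst h1; simp [h]
  · by_cases h2 : x = z
    · subst h2; simp [h]
    · rw [Equiv.swap_apply_of_ne_of_ne h1 h2]

lemma sameWord_swap_right {g : P → I} {L₁ L₂ : P → ℕ} {v z : P} (h : SameWord g L₁ L₂)
    (hg : g v = g z) : SameWord g L₁ (L₂ ∘ Equiv.swap v z) := by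
  intro x y hxy
  rw [h x _ hxy, g_swap hg]

lemma sameWord_swap_left {g : P → I} {L₁ L₂ : P → ℕ} {v z : P} (h : SameWord g L₁ L₂)
    (hg : g v = g z) : SameWord g (L₁ ∘ Equiv.swap v z) L₂ := by
  intro x y hxy
  rw [← h _ y hxy, g_swap hg]

lemma slides_word {g : P → I} (hc : Cross g r₁ r₂) {L₁ M₁ : P → ℕ}
    (h₁ : Slides r₁ L₁ M₁) : IsLabeling L₁ → ∀ L₂ M₂, Slides r₂ L₂ M₂ → IsLabeling L₂ →
      SameWord g L₁ L₂ → SameWord g M₁ M₂ := by
  induction h₁ with
  | @stop L₁ v₁ hv₁ hmax₁ =>
    intro hL₁ L₂ M₂ h₂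
    induction h₂ with
    | stop hv₂ hmax₂ => exact fun _ h => h
    | @step L₂ M₂ v₂ z₂ hv₂ hz₂ hmin₂ h₂ ih₂ =>
      intro hL₂ hw
      apply ih₂ (hL₂.comp _)
      apply sameWord_swap_right hw
      by_contra hne
      obtain ⟨z₁, hz₁⟩ := hL₁.exists_eq (hL₂.one_le z₂) (hL₂.le_card z₂)
      exact hmax₁ z₁ ((hc v₁ v₂ z₁ z₂ (hw _ _ (by rw [hv₁, hv₂])) (hw _ _ hz₁)
        (by rw [hw _ _ hz₁, hw v₁ v₂ (by rw [hv₁, hv₂])]; exact hne)).mpr hz₂)
  | @step L₁ M₁ v₁ z₁ hv₁ hz₁ hmin₁ h₁ ih₁ =>
    intro hL₁ L₂ M₂ h₂ hL₂ hw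
    by_cases hg₁ : g v₁ = g z₁
    · exact ih₁ (hL₁.comp _) L₂ M₂ h₂ hL₂ (sameWord_swap_left hw hg₁)
    · induction h₂ with
      | @stop L₂ v₂ hv₂ hmax₂ =>
        exfalso
        obtain ⟨z₂, hz₂⟩ := hL₂.exists_eq (hL₁.one_le z₁) (hL₁.le_card z₁)
        exact hmax₂ z₂ ((hc v₁ v₂ z₁ z₂ (hw _ _ (by rw [hv₁, hv₂])) (hw _ _ hz₂.symm)
          hg₁).mp hz₁)
      | @step L₂ M₂ v₂ z₂ hv₂ hz₂ hmin₂ h₂ ih₂ =>
        have hgv : g v₁ = g v₂ := hw _ _ (by rw [hv₁, hv₂])
        by_cases hg₂ : g v₂ = g z₂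
        · exact ih₂ (hL₂.comp _) (sameWord_swap_right hw hg₂)
        · have heq : L₁ z₁ = L₂ z₂ := by
            apply le_antisymm
            · obtain ⟨w, hww⟩ := hL₁.exists_eq (hL₂.one_le z₂) (hL₂.le_card z₂)
              have hgw : g w = g z₂ := hw _ _ hww
              rw [← hww]
              exact hmin₁ w ((hc v₁ v₂ w z₂ hgv hgw (by rw [hgw, hgv]; exact hg₂)).mpr hz₂)
            · obtain ⟨w, hww⟩ := hL₂.exists_eq (hL₁.one_le z₁) (hL₁.le_card z₁)
              have hgw : g z₁ = g w := hw _ _ hww.symm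
              rw [← hww]
              exact hmin₂ w ((hc v₁ v₂ z₁ w hgv hgw hg₁).mp hz₁)
          apply ih₁ (hL₁.comp _) _ M₂ h₂ (hL₂.comp _)
          have hvz₁ : v₁ ≠ z₁ := fun h => hg₁ (by rw [h])
          have hvz₂ : v₂ ≠ z₂ := fun h => hg₂ (by rw [h])
          intro x y hxy
          by_cases hx1 : x = v₁
          · subst hx1
            rw [swap_apply_l, heq] at hxy
            have h3 : Equiv.swap v₂ z₂ y = z₂ := (hL₂.inj hxy).symm
            have h4 : y = v₂ := by
              have := (Equiv.swap v₂ z₂).injective (a₁ := y) (a₂ := v₂) (by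
                rw [h3]; simp)
              exact this
            rw [h4, hgv]
          · by_cases hx2 : x = z₁
            · subst hx2
              rw [swap_apply_r, hv₁, ← hv₂] at hxy
              have h3 : Equiv.swap v₂ z₂ y = v₂ := (hL₂.inj hxy).symm
              have h4 : y = z₂ := by
                have := (Equiv.swap v₂ z₂).injective (a₁ := y) (a₂ := z₂) (by
                  rw [h3]; simp)
                exact this
              rw [h4]
              exact hw _ _ heq
            · rw [swap_apply_other hx1 hx2] at hxy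
              by_cases hy1 : y = v₂
              · subst hy1
                rw [swap_apply_l, ← heq] at hxy
                exact absurd (hL₁.inj hxy) hx2
              · by_cases hy2 : y = z₂
                · subst hy2
                  rw [swap_apply_r, hv₂, ← hv₁] at hxy
                  exact absurd (hL₁.inj hxy) hx1
                · rw [swap_apply_other hy1 hy2] at hxy
                  exact hw _ _ hxy

lemma iter_word [Nonempty P] (hr₁ : Good r₁) (hr₂ : Good r₂) {g : P → I}
    (hc : Cross g r₁ r₂) {L : P → ℕ} (hL : IsLabeling L) (t : ℕ) :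
    SameWord g ((promR r₁)^[t] L) ((promR r₂)^[t] L) := by
  induction t with
  | zero =>
    intro x y hxy
    rw [hL.inj hxy]
  | succ t ih =>
    rw [Function.iterate_succ_apply', Function.iterate_succ_apply']
    have h1 := iter_labeling hr₁ hL t
    have h2 := iter_labeling hr₂ hL t
    obtain ⟨M₁, hM₁, he₁⟩ := exists_slides hr₁ h1
    obtain ⟨M₂, hM₂, he₂⟩ := exists_slides hr₂ h2
    have hw := slides_word hc hM₁ h1 _ M₂ hM₂ h2 ih
    rw [he₁, he₂]
    intro x y hxy
    exact hw x y (shift_inj (hM₁.labeling h1) (hM₂.labeling h2) hxy)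

end words

/-! ### Equivariance -/

section equiv
variable [Fintype P] [PartialOrder P] {r : P → P → Prop}

lemma slides_equiv {e : Equiv.Perm P} (he : ∀ v z, r (e v) (e z) ↔ r v z) {L M : P → ℕ}
    (h : Slides r L M) : Slides r (L ∘ e) (M ∘ e) := by
  induction h with
  | @stop L v hv hmax =>
    refine .stop (v := e.symm v) (by simp [hv]) (fun z hz => hmax (e z) ?_)
    have := (he (e.symm v) z).mpr hz
    simpa using this
  | @step L M v z hv hz hmin h ih =>
    refine .step (v := e.symm v) (z := e.symm z) (by simp [hv]) ?_ ?_ ?_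
    · rw [← he]; simpa using hz
    · intro w hw
      have := (he (e.symm v) w).mpr hw
      simpa using hmin (e w) (by simpa using this)
    · have : (L ∘ e) ∘ Equiv.swap (e.symm v) (e.symm z) = (L ∘ Equiv.swap v z) ∘ e := by
        funext x
        simp only [Function.comp]
        congr 1
        rw [← e.injective.swap_apply]
        simp
      rw [this]
      exact ih

lemma promR_equiv (hr : Good r) [Nonempty P] {e : Equiv.Perm P}
    (he : ∀ v z, r (e v) (e z) ↔ r v z) {L : P → ℕ} (hL : IsLabeling L) :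
    promR r (L ∘ e) = promR r L ∘ e := by
  obtain ⟨M, hM, h⟩ := exists_slides hr hL
  rw [h, promR_eq_shift hr (slides_equiv he hM) (hL.comp e)]
  rfl

lemma iter_equiv (hr : Good r) [Nonempty P] {e : Equiv.Perm P}
    (he : ∀ v z, r (e v) (e z) ↔ r v z) {L : P → ℕ} (hL : IsLabeling L) (t : ℕ) :
    (promR r)^[t] (L ∘ e) = (promR r)^[t] L ∘ e := by
  induction t with
  | zero => rfl
  | succ t ih =>
    rw [Function.iterate_succ_apply', Function.iterate_succ_apply', ih,
      promR_equiv hr he (iter_labeling hr hL t)]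

end equiv

/-! ### Positions of the label one -/

section pos
variable [Fintype P] [Nonempty P]

/-- the element with label `1` -/
noncomputable def pos (M : P → ℕ) : P := Function.invFun M 1

lemma pos_spec {M : P → ℕ} (h : IsLabeling M) : M (pos M) = 1 :=
  Function.invFun_eq (h.exists_eq (le_refl 1) Fintype.card_pos)

lemma pos_eq {M : P → ℕ} (h : IsLabeling M) {v : P} (hv : M v = 1) : pos M = v :=
  h.inj (by rw [pos_spec h, hv])

lemma pos_comp {M : P → ℕ} (h : IsLabeling M) (e : Equiv.Perm P) :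
    pos (M ∘ e) = e.symm (pos M) :=
  pos_eq (h.comp e) (by simp [pos_spec h])

/-- the finite set of labelings -/
noncomputable def Lab (P : Type*) [Fintype P] : Finset (P → ℕ) :=
  (show {L : P → ℕ | IsLabeling L}.Finite from
    (Set.Finite.pi' fun _ : P => Set.finite_Icc 1 (Fintype.card P)).subset
      (fun _ hL x => hL.mapsTo (Set.mem_univ x))).toFinset

lemma mem_Lab {L : P → ℕ} : L ∈ Lab P ↔ IsLabeling L := by
  simp [Lab]

end pos

/-! ### Counting with the symmetric group of an antichain -/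

section counting
variable [Fintype P] [PartialOrder P] [Nonempty P] {r : P → P → Prop}

/-- the element with label `1` after `t` promotions -/
noncomputable def loc (r : P → P → Prop) (t : ℕ) (L : P → ℕ) : P := pos ((promR r)^[t] L)

lemma loc_spec (hr : Good r) {L : P → ℕ} (hL : IsLabeling L) (t : ℕ) :
    (promR r)^[t] L (loc r t L) = 1 := pos_spec (iter_labeling hr hL t)

lemma loc_eq (hr : Good r) {L : P → ℕ} (hL : IsLabeling L) {t : ℕ} {v : P}
    (h : (promR r)^[t] L v = 1) : loc r t L = v := pos_eq (iter_labeling hr hL t) h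

lemma loc_swap (hr : Good r) {d e : P}
    (he : ∀ v z, r (Equiv.swap d e v) (Equiv.swap d e z) ↔ r v z) {L : P → ℕ}
    (hL : IsLabeling L) (t : ℕ) :
    loc r t (L ∘ Equiv.swap d e) = Equiv.swap d e (loc r t L) := by
  unfold loc
  rw [iter_equiv hr he hL, pos_comp (iter_labeling hr hL t), Equiv.symm_swap]

lemma comp_swap_swap (L : P → ℕ) (a b : P) :
    (L ∘ Equiv.swap a b) ∘ Equiv.swap b a = L := by
  funext x
  simp [Equiv.swap_comm b a]

lemma unif (hr : Good r) {D B : Finset P} (hBD : B ⊆ D)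
    (haut : ∀ d ∈ D, ∀ e ∈ D, ∀ v z, r (Equiv.swap d e v) (Equiv.swap d e z) ↔ r v z)
    (H : (P → ℕ) → Prop)
    (hH : ∀ L, IsLabeling L → H L → ∀ d ∈ D, ∀ e ∈ D, H (L ∘ Equiv.swap d e)) (t : ℕ) :
    ((Lab P).filter (fun L => H L ∧ loc r t L ∈ B)).card * D.card =
      ((Lab P).filter (fun L => H L ∧ loc r t L ∈ D)).card * B.card := by
  rw [← Finset.card_product, ← Finset.card_product]
  apply Finset.card_nbij'
    (fun p => (p.1 ∘ Equiv.swap (loc r t p.1) p.2, loc r t p.1))
    (fun p => (p.1 ∘ Equiv.swap (loc r t p.1) p.2, loc r t p.1))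
  · rintro ⟨L, d⟩ h
    simp only [Finset.coe_product, Finset.coe_filter, Set.mem_prod, Set.mem_ofPred_eq,
      Finset.mem_coe, mem_Lab] at h ⊢
    obtain ⟨⟨hL, h1, h2⟩, hd⟩ := h
    refine ⟨⟨hL.comp _, hH L hL h1 _ (hBD h2) _ hd, ?_⟩, h2⟩
    rw [loc_swap hr (haut _ (hBD h2) _ hd) hL]
    simpa using hd
  · rintro ⟨L, d⟩ h
    simp only [Finset.coe_product, Finset.coe_filter, Set.mem_prod, Set.mem_ofPred_eq,
      Finset.mem_coe, mem_Lab] at h ⊢
    obtain ⟨⟨hL, h1, h2⟩, hd⟩ := h
    refine ⟨⟨hL.comp _, hH L hL h1 _ h2 _ (hBD hd), ?_⟩, h2⟩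
    rw [loc_swap hr (haut _ h2 _ (hBD hd)) hL]
    simpa using hd
  · rintro ⟨L, d⟩ h
    simp only [Finset.coe_product, Finset.coe_filter, Set.mem_prod, Set.mem_ofPred_eq,
      Finset.mem_coe, mem_Lab] at h ⊢
    obtain ⟨⟨hL, h1, h2⟩, hd⟩ := h
    have h3 : loc r t (L ∘ Equiv.swap (loc r t L) d) = d := by
      rw [loc_swap hr (haut _ (hBD h2) _ hd) hL]; simp
    simp only [h3, comp_swap_swap]
  · rintro ⟨L, d⟩ h
    simp only [Finset.coe_product, Finset.coe_filter, Set.mem_prod, Set.mem_ofPred_eq,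
      Finset.mem_coe, mem_Lab] at h ⊢
    obtain ⟨⟨hL, h1, h2⟩, hd⟩ := h
    have h3 : loc r t (L ∘ Equiv.swap (loc r t L) d) = d := by
      rw [loc_swap hr (haut _ h2 _ (hBD hd)) hL]; simp
    simp only [h3, comp_swap_swap]

lemma fork (hr : Good r) {D B : Finset P} (hBD : B ⊆ D)
    (haut : ∀ d ∈ D, ∀ e ∈ D, ∀ v z, r (Equiv.swap d e v) (Equiv.swap d e z) ↔ r v z)
    (H : (P → ℕ) → Prop)
    (hH : ∀ L, IsLabeling L → H L → ∀ d ∈ D, ∀ e ∈ D, H (L ∘ Equiv.swap d e)) (t₁ t₂ : ℕ) :
    ((Lab P).filter (fun L => H L ∧ loc r t₁ L ∈ D \ B ∧ loc r t₂ L ∈ B)).card =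
      ((Lab P).filter (fun L => H L ∧ loc r t₁ L ∈ B ∧ loc r t₂ L ∈ D \ B)).card := by
  apply Finset.card_nbij'
    (fun L => L ∘ Equiv.swap (loc r t₁ L) (loc r t₂ L))
    (fun L => L ∘ Equiv.swap (loc r t₁ L) (loc r t₂ L))
  · intro L h
    simp only [Finset.coe_filter, Set.mem_ofPred_eq, mem_Lab] at h ⊢
    obtain ⟨hL, h1, h2, h3⟩ := h
    have h2' := (Finset.mem_sdiff.mp h2).1
    refine ⟨hL.comp _, hH L hL h1 _ h2' _ (hBD h3), ?_, ?_⟩
    · rw [loc_swap hr (haut _ h2' _ (hBD h3)) hL]; simpa using h3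
    · rw [loc_swap hr (haut _ h2' _ (hBD h3)) hL]; simpa using h2
  · intro L h
    simp only [Finset.coe_filter, Set.mem_ofPred_eq, mem_Lab] at h ⊢
    obtain ⟨hL, h1, h2, h3⟩ := h
    have h3' := (Finset.mem_sdiff.mp h3).1
    refine ⟨hL.comp _, hH L hL h1 _ (hBD h2) _ h3', ?_, ?_⟩
    · rw [loc_swap hr (haut _ (hBD h2) _ h3') hL]; simpa using h3
    · rw [loc_swap hr (haut _ (hBD h2) _ h3') hL]; simpa using h2
  · intro L h
    simp only [Finset.coe_filter, Set.mem_ofPred_eq, mem_Lab] at h ⊢
    obtain ⟨hL, h1, h2, h3⟩ := h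
    have h2' := (Finset.mem_sdiff.mp h2).1
    have h4 := loc_swap hr (haut _ h2' _ (hBD h3)) hL t₁
    have h5 := loc_swap hr (haut _ h2' _ (hBD h3)) hL t₂
    rw [Equiv.swap_apply_left] at h4
    rw [Equiv.swap_apply_right] at h5
    rw [h4, h5, comp_swap_swap]
  · intro L h
    simp only [Finset.coe_filter, Set.mem_ofPred_eq, mem_Lab] at h ⊢
    obtain ⟨hL, h1, h2, h3⟩ := h
    have h3' := (Finset.mem_sdiff.mp h3).1
    have h4 := loc_swap hr (haut _ (hBD h2) _ h3') hL t₁
    have h5 := loc_swap hr (haut _ (hBD h2) _ h3') hL t₂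
    rw [Equiv.swap_apply_left] at h4
    rw [Equiv.swap_apply_right] at h5
    rw [h4, h5, comp_swap_swap]

end counting

/-! ### The order with a minimal element isolated, and its flattening on a module -/

section rel
variable [Fintype P] [PartialOrder P] [Nonempty P]

def rx (x : P) (v z : P) : Prop := v < z ∧ v ≠ x

def rs (x : P) (D : Finset P) (v z : P) : Prop := rx x v z ∧ ¬ (v ∈ D ∧ z ∈ D)

lemma good_rx (x : P) : Good (rx x) where
  lt h := h.1
  trans h1 h2 := ⟨h1.1.trans h2.1, h1.2⟩

structure IsModule (x : P) (D B : Finset P) : Prop where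
  hx : x ∉ D
  lower : ∀ v z, rx x v z → z ∈ D → v ∈ D
  auto : ∀ d ∈ D, ∀ d' ∈ D, ∀ z, z ∉ D → rx x d z → rx x d' z
  sub : B ⊆ D
  sep : ∀ v ∈ B, ∀ z ∈ D \ B, ¬ rx x v z ∧ ¬ rx x z v

variable {x : P} {D B : Finset P}

lemma IsModule.good (h : IsModule x D B) : Good (rs x D) where
  lt h := h.1.1
  trans := by
    intro a b c h1 h2
    refine ⟨(good_rx x).trans h1.1 h2.1, ?_⟩
    rintro ⟨ha, hc⟩
    exact h1.2 ⟨ha, h.lower _ _ h2.1 hc⟩

lemma IsModule.aut (h : IsModule x D B) : ∀ d ∈ D, ∀ e ∈ D, ∀ v z,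
    rs x D (Equiv.swap d e v) (Equiv.swap d e z) ↔ rs x D v z := by
  intro d hd e he
  have hin : ∀ v, v ∈ D → Equiv.swap d e v ∈ D := by
    intro v hv
    by_cases h1 : v = d
    · subst h1; simpa using he
    · by_cases h2 : v = e
      · subst h2; simpa using hd
      · rwa [Equiv.swap_apply_of_ne_of_ne h1 h2]
  have hout : ∀ v, v ∉ D → Equiv.swap d e v = v := by
    intro v hv
    exact Equiv.swap_apply_of_ne_of_ne (fun h => hv (h ▸ hd)) (fun h => hv (h ▸ he))
  intro v z
  by_cases hv : v ∈ D <;> by_cases hz : z ∈ D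
  · exact ⟨fun h' => absurd ⟨hin v hv, hin z hz⟩ h'.2, fun h' => absurd ⟨hv, hz⟩ h'.2⟩
  · rw [hout z hz]
    exact ⟨fun h' => ⟨h.auto _ (hin v hv) _ hv z hz h'.1, fun h'' => hz h''.2⟩,
      fun h' => ⟨h.auto _ hv _ (hin v hv) z hz h'.1, fun h'' => hz h''.2⟩⟩
  · rw [hout v hv]
    exact ⟨fun h' => absurd (h.lower _ _ h'.1 (hin z hz)) hv,
      fun h' => absurd (h.lower _ _ h'.1 hz) hv⟩
  · rw [hout v hv, hout z hz]

lemma ne_of_notMem {α : Type*} {s : Finset α} {a b : α} (ha : a ∉ s) (hb : b ∈ s) : a ≠ b := by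
  rintro rfl; exact ha hb

/-- the classes: `B`, `D \ B`, and singletons outside `D` -/
noncomputable def cls (D B : Finset P) (v : P) : P ⊕ Bool :=
  if v ∈ B then Sum.inr true else if v ∈ D then Sum.inr false else Sum.inl v

lemma cls_B (h : B ⊆ D) {v : P} : cls D B v = Sum.inr true ↔ v ∈ B := by
  unfold cls; split_ifs with h1 h2 <;> simp_all

lemma cls_DB (h : B ⊆ D) {v : P} : cls D B v = Sum.inr false ↔ v ∈ D \ B := by
  unfold cls; split_ifs with h1 h2 <;> simp_all

lemma cls_out (h : B ⊆ D) {v u : P} : cls D B v = Sum.inl u ↔ v = u ∧ v ∉ D := by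
  unfold cls; split_ifs with h1 h2
  · simp [h h1]
  · simp [h2]
  · simp [h2]

lemma IsModule.cross (h : IsModule x D B) : Cross (cls D B) (rx x) (rs x D) := by
  intro v v' z z' hv hz hne
  rcases hcv : cls D B v with u | b
  · obtain ⟨rfl, hvD⟩ := (cls_out h.sub).mp hcv
    obtain ⟨rfl, -⟩ := (cls_out h.sub).mp (hv.symm.trans hcv)
    rcases hcz : cls D B z with w | b
    · obtain ⟨rfl, hzD⟩ := (cls_out h.sub).mp hcz
      obtain ⟨rfl, -⟩ := (cls_out h.sub).mp (hz.symm.trans hcz)
      exact ⟨fun h' => ⟨h', fun h'' => hvD h''.1⟩, fun h' => h'.1⟩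
    · have hzD : z ∈ D := by
        cases b
        · exact (Finset.mem_sdiff.mp ((cls_DB h.sub).mp hcz)).1
        · exact h.sub ((cls_B h.sub).mp hcz)
      have hzD' : z' ∈ D := by
        rw [hz] at hcz
        cases b
        · exact (Finset.mem_sdiff.mp ((cls_DB h.sub).mp hcz)).1
        · exact h.sub ((cls_B h.sub).mp hcz)
      exact ⟨fun h' => absurd (h.lower _ _ h' hzD) hvD,
        fun h' => absurd (h.lower _ _ h'.1 hzD') hvD⟩
  · have hvD : v ∈ D := by
      cases b
      · exact (Finset.mem_sdiff.mp ((cls_DB h.sub).mp hcv)).1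
      · exact h.sub ((cls_B h.sub).mp hcv)
    have hvD' : v' ∈ D := by
      have hcv' := hv.symm.trans hcv
      cases b
      · exact (Finset.mem_sdiff.mp ((cls_DB h.sub).mp hcv')).1
      · exact h.sub ((cls_B h.sub).mp hcv')
    rcases hcz : cls D B z with w | c
    · obtain ⟨rfl, hzD⟩ := (cls_out h.sub).mp hcz
      obtain ⟨rfl, -⟩ := (cls_out h.sub).mp (hz.symm.trans hcz)
      exact ⟨fun h' => ⟨h.auto _ hvD _ hvD' _ hzD h', fun h'' => hzD h''.2⟩,
        fun h' => h.auto _ hvD' _ hvD _ hzD h'.1⟩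
    · have hcz' := hz.symm.trans hcz
      have hcv' := hv.symm.trans hcv
      cases b <;> cases c
      · exact absurd (hcv.trans hcz.symm) hne
      · have a1 := (cls_DB h.sub).mp hcv
        have a2 := (cls_DB h.sub).mp hcv'
        have a3 := (cls_B h.sub).mp hcz
        have a4 := (cls_B h.sub).mp hcz'
        exact ⟨fun h' => absurd h' (h.sep _ a3 _ a1).2, fun h' => absurd h'.1 (h.sep _ a4 _ a2).2⟩
      · have a1 := (cls_B h.sub).mp hcv
        have a2 := (cls_B h.sub).mp hcv'
        have a3 := (cls_DB h.sub).mp hcz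
        have a4 := (cls_DB h.sub).mp hcz'
        exact ⟨fun h' => absurd h' (h.sep _ a1 _ a3).1, fun h' => absurd h'.1 (h.sep _ a2 _ a4).1⟩
      · exact absurd (hcv.trans hcz.symm) hne

lemma IsModule.loc_cls (h : IsModule x D B) {L : P → ℕ} (hL : IsLabeling L) (t : ℕ) :
    cls D B (loc (rx x) t L) = cls D B (loc (rs x D) t L) :=
  iter_word (good_rx x) h.good h.cross hL t _ _
    (by rw [loc_spec (good_rx x) hL, loc_spec h.good hL])

lemma IsModule.loc_B (h : IsModule x D B) {L : P → ℕ} (hL : IsLabeling L) (t : ℕ) :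
    loc (rx x) t L ∈ B ↔ loc (rs x D) t L ∈ B := by
  rw [← cls_B h.sub, ← cls_B h.sub, h.loc_cls hL]

lemma IsModule.loc_DB (h : IsModule x D B) {L : P → ℕ} (hL : IsLabeling L) (t : ℕ) :
    loc (rx x) t L ∈ D \ B ↔ loc (rs x D) t L ∈ D \ B := by
  rw [← cls_DB h.sub, ← cls_DB h.sub, h.loc_cls hL]

lemma IsModule.loc_D (h : IsModule x D B) {L : P → ℕ} (hL : IsLabeling L) (t : ℕ) :
    loc (rx x) t L ∈ D ↔ loc (rs x D) t L ∈ D := by
  have h1 := h.loc_B hL t
  have h2 := h.loc_DB hL t
  simp only [Finset.mem_sdiff] at h2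
  constructor
  · intro h3
    by_cases h4 : loc (rx x) t L ∈ B
    · exact h.sub (h1.mp h4)
    · exact (h2.mp ⟨h3, h4⟩).1
  · intro h3
    by_cases h4 : loc (rs x D) t L ∈ B
    · exact h.sub (h1.mpr h4)
    · exact (h2.mpr ⟨h3, h4⟩).1

lemma IsModule.loc_O (h : IsModule x D B) {O : Finset P} (hO : Disjoint O D) {L : P → ℕ}
    (hL : IsLabeling L) (t : ℕ) :
    loc (rx x) t L ∈ O ↔ loc (rs x D) t L ∈ O := by
  have h1 := h.loc_cls hL t
  constructor
  · intro h2
    have h3 : loc (rx x) t L ∉ D := Finset.disjoint_left.mp hO h2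
    have h4 := (cls_out h.sub).mpr ⟨rfl, h3⟩
    rw [h1] at h4
    rw [((cls_out h.sub).mp h4).1]; exact h2
  · intro h2
    have h3 : loc (rs x D) t L ∉ D := Finset.disjoint_left.mp hO h2
    have h4 := (cls_out h.sub).mpr ⟨rfl, h3⟩
    rw [← h1] at h4
    rw [((cls_out h.sub).mp h4).1]; exact h2

/-- labelings with `x` on top label, with the two late exits in prescribed sets -/
noncomputable def NN (x : P) (t₁ t₂ : ℕ) (S₁ S₂ : Finset P) : Finset (P → ℕ) :=
  (Lab P).filter (fun L => L x = Fintype.card P ∧ loc (rx x) t₁ L ∈ S₁ ∧ loc (rx x) t₂ L ∈ S₂)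

lemma IsModule.unif₂ (h : IsModule x D B) {O : Finset P} (hO : Disjoint O D) (t₁ t₂ : ℕ) :
    (NN x t₁ t₂ O B).card * D.card = (NN x t₁ t₂ O D).card * B.card := by
  have key := unif h.good h.sub h.aut
    (fun L => L x = Fintype.card P ∧ loc (rs x D) t₁ L ∈ O) ?_ t₂
  · have e1 : NN x t₁ t₂ O B = (Lab P).filter
        (fun L => (L x = Fintype.card P ∧ loc (rs x D) t₁ L ∈ O) ∧ loc (rs x D) t₂ L ∈ B) := by
      apply Finset.filter_congr
      intro L hL
      rw [mem_Lab] at hL
      rw [h.loc_O hO hL, h.loc_B hL, and_assoc]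
    have e2 : NN x t₁ t₂ O D = (Lab P).filter
        (fun L => (L x = Fintype.card P ∧ loc (rs x D) t₁ L ∈ O) ∧ loc (rs x D) t₂ L ∈ D) := by
      apply Finset.filter_congr
      intro L hL
      rw [mem_Lab] at hL
      rw [h.loc_O hO hL, h.loc_D hL, and_assoc]
    rw [e1, e2]; convert key
  · rintro L hL ⟨h1, h2⟩ d hd e he
    refine ⟨?_, ?_⟩
    · rw [swap_apply_other (ne_of_notMem h.hx hd) (ne_of_notMem h.hx he)]; exact h1
    · rw [loc_swap h.good (h.aut d hd e he) hL]
      have h3 := Finset.disjoint_left.mp hO h2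
      rwa [Equiv.swap_apply_of_ne_of_ne (ne_of_notMem h3 hd) (ne_of_notMem h3 he)]

lemma IsModule.unif₁ (h : IsModule x D B) {O : Finset P} (hO : Disjoint O D) (t₁ t₂ : ℕ) :
    (NN x t₁ t₂ B O).card * D.card = (NN x t₁ t₂ D O).card * B.card := by
  have key := unif h.good h.sub h.aut
    (fun L => L x = Fintype.card P ∧ loc (rs x D) t₂ L ∈ O) ?_ t₁
  · have e1 : NN x t₁ t₂ B O = (Lab P).filter
        (fun L => (L x = Fintype.card P ∧ loc (rs x D) t₂ L ∈ O) ∧ loc (rs x D) t₁ L ∈ B) := by
      apply Finset.filter_congr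
      intro L hL
      rw [mem_Lab] at hL
      rw [h.loc_O hO hL, h.loc_B hL]
      tauto
    have e2 : NN x t₁ t₂ D O = (Lab P).filter
        (fun L => (L x = Fintype.card P ∧ loc (rs x D) t₂ L ∈ O) ∧ loc (rs x D) t₁ L ∈ D) := by
      apply Finset.filter_congr
      intro L hL
      rw [mem_Lab] at hL
      rw [h.loc_O hO hL, h.loc_D hL]
      tauto
    rw [e1, e2]; convert key
  · rintro L hL ⟨h1, h2⟩ d hd e he
    refine ⟨?_, ?_⟩
    · rw [swap_apply_other (ne_of_notMem h.hx hd) (ne_of_notMem h.hx he)]; exact h1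
    · rw [loc_swap h.good (h.aut d hd e he) hL]
      have h3 := Finset.disjoint_left.mp hO h2
      rwa [Equiv.swap_apply_of_ne_of_ne (ne_of_notMem h3 hd) (ne_of_notMem h3 he)]

lemma IsModule.fork (h : IsModule x D B) (t₁ t₂ : ℕ) :
    (NN x t₁ t₂ (D \ B) B).card = (NN x t₁ t₂ B (D \ B)).card := by
  have key := TangledLeQuasi.fork h.good h.sub h.aut
    (fun L => L x = Fintype.card P) ?_ t₁ t₂
  · have e1 : NN x t₁ t₂ (D \ B) B = (Lab P).filter
        (fun L => L x = Fintype.card P ∧ loc (rs x D) t₁ L ∈ D \ B ∧ loc (rs x D) t₂ L ∈ B) := by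
      apply Finset.filter_congr
      intro L hL
      rw [mem_Lab] at hL
      rw [h.loc_DB hL, h.loc_B hL]
    have e2 : NN x t₁ t₂ B (D \ B) = (Lab P).filter
        (fun L => L x = Fintype.card P ∧ loc (rs x D) t₁ L ∈ B ∧ loc (rs x D) t₂ L ∈ D \ B) := by
      apply Finset.filter_congr
      intro L hL
      rw [mem_Lab] at hL
      rw [h.loc_DB hL, h.loc_B hL]
    rw [e1, e2]; convert key
  · intro L hL h1 d hd e he
    rw [swap_apply_other (ne_of_notMem h.hx hd) (ne_of_notMem h.hx he)]; exact h1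

end rel

/-! ### Dynamics with `x` on top label -/

section dyn
variable [Fintype P] [PartialOrder P] [Nonempty P] {x : P}

lemma good_lt : Good (P := P) (· < ·) where
  lt h := h
  trans h1 h2 := lt_trans h1 h2

lemma promR_x (hx : ∀ w, ¬ w < x) {L : P → ℕ} (hL : IsLabeling L) (h1 : L x ≠ 1) :
    promR (rx x) L x = L x - 1 := by
  obtain ⟨M, hM, he⟩ := exists_slides (good_rx x) hL
  obtain ⟨v, hv⟩ := hL.exists_eq (le_refl 1) Fintype.card_pos
  have h2 : M x = L x := hM.fixed (good_rx x) hL v x hv (fun h => hx v h.1)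
    (by rintro rfl; exact h1 hv)
  rw [he]
  unfold shift
  rw [h2, if_neg h1]

lemma iter_x (hx : ∀ w, ¬ w < x) {L : P → ℕ} (hL : IsLabeling L)
    (h1 : L x = Fintype.card P) {t : ℕ} (ht : t + 1 ≤ Fintype.card P) :
    (promR (rx x))^[t] L x = Fintype.card P - t := by
  induction t with
  | zero => simpa using h1
  | succ t ih =>
    have := ih (by omega)
    rw [Function.iterate_succ_apply', promR_x hx (iter_labeling (good_rx x) hL t) (by omega), this]
    omega

lemma slides_lt_rx (hx : ∀ w, ¬ w < x) {L M : P → ℕ} (h : Slides (· < ·) L M) :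
    IsLabeling L → L x ≠ 1 → Slides (rx x) L M := by
  induction h with
  | stop hv hmax => exact fun _ _ => .stop hv (fun z hz => hmax z hz.1)
  | @step L M v z hv hz hmin h ih =>
    intro hL hx1
    have hvx : x ≠ v := by rintro rfl; exact hx1 hv
    have hzx : x ≠ z := by rintro rfl; exact hx v hz
    refine .step hv ⟨hz, hvx.symm⟩ (fun w hw => hmin w hw.1) (ih (hL.comp _) ?_)
    rw [swap_apply_other hvx hzx]; exact hx1

lemma promR_lt_eq (hx : ∀ w, ¬ w < x) {L : P → ℕ} (hL : IsLabeling L) (h1 : L x ≠ 1) :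
    promR (· < ·) L = promR (rx x) L := by
  obtain ⟨M, hM, he⟩ := exists_slides (good_lt (P := P)) hL
  rw [he, promR_eq_shift (good_rx x) (slides_lt_rx hx hM hL h1) hL]

lemma iter_lt_eq (hx : ∀ w, ¬ w < x) {L : P → ℕ} (hL : IsLabeling L)
    (h1 : L x = Fintype.card P) {t : ℕ} (ht : t + 1 ≤ Fintype.card P) :
    (promR (· < ·))^[t] L = (promR (rx x))^[t] L := by
  induction t with
  | zero => rfl
  | succ t ih =>
    rw [Function.iterate_succ_apply', Function.iterate_succ_apply', ih (by omega)]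
    apply promR_lt_eq hx (iter_labeling (good_rx x) hL t)
    rw [iter_x hx hL h1 (by omega)]
    omega

/-- the last exit is minimal -/
lemma loc_min₂ (hx : ∀ w, ¬ w < x) {L : P → ℕ} (hL : IsLabeling L)
    (h1 : L x = Fintype.card P) (hn : 2 ≤ Fintype.card P) (z : P) :
    ¬ rx x z (loc (rx x) (Fintype.card P - 2) L) := by
  intro hz
  have hK := iter_labeling (good_rx x) hL (Fintype.card P - 2)
  have hs := iter_sorted (good_rx x) hL (Fintype.card P - 2)
  have hb := loc_spec (good_rx x) hL (Fintype.card P - 2)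
  have hxx := iter_x hx hL h1 (t := Fintype.card P - 2) (by omega)
  set K := (promR (rx x))^[Fintype.card P - 2] L with hKdef
  have h2 := hK.one_le z
  by_cases h3 : 2 < K z
  · have := hs z _ hz (by omega)
    omega
  · by_cases h4 : K z = 1
    · exact hz.1.ne (hK.inj (by rw [h4, hb]))
    · exact hz.2 (hK.inj (by omega))

lemma loc_step (hx : ∀ w, ¬ w < x) {L : P → ℕ} (hL : IsLabeling L)
    (hn : 3 ≤ Fintype.card P) :
    (promR (rx x))^[Fintype.card P - 3] L (loc (rx x) (Fintype.card P - 2) L) = 1 ∨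
    (promR (rx x))^[Fintype.card P - 3] L (loc (rx x) (Fintype.card P - 2) L) = 2 := by
  have hK := iter_labeling (good_rx x) hL (Fintype.card P - 3)
  have hb := loc_spec (good_rx x) hL (Fintype.card P - 2)
  obtain ⟨M, hM, he⟩ := exists_slides (good_rx x) hK
  have h1 : Fintype.card P - 2 = (Fintype.card P - 3) + 1 := by omega
  have h2 : (promR (rx x))^[Fintype.card P - 2] L = shift M := by
    rw [h1, Function.iterate_succ_apply', he]
  rw [h2] at hb
  apply hM.two (good_rx x) hK (by omega)
  have h3 := (hM.labeling hK).one_le (loc (rx x) (Fintype.card P - 2) L)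
  unfold shift at hb
  split_ifs at hb with h4 <;> omega

/-- the second to last exit is minimal in the relevant case -/
lemma loc_min₃ (hx : ∀ w, ¬ w < x) {L : P → ℕ} (hL : IsLabeling L)
    (h1 : L x = Fintype.card P) (hn : 3 ≤ Fintype.card P)
    (hne : loc (rx x) (Fintype.card P - 2) L ≠ loc (rx x) (Fintype.card P - 3) L)
    (hba : ¬ rx x (loc (rx x) (Fintype.card P - 2) L) (loc (rx x) (Fintype.card P - 3) L))
    (z : P) : ¬ rx x z (loc (rx x) (Fintype.card P - 3) L) := by
  intro hz
  have hK := iter_labeling (good_rx x) hL (Fintype.card P - 3)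
  have hs := iter_sorted (good_rx x) hL (Fintype.card P - 3)
  have ha := loc_spec (good_rx x) hL (Fintype.card P - 3)
  have hxx := iter_x hx hL h1 (t := Fintype.card P - 3) (by omega)
  have hb := loc_step hx hL hn
  set K := (promR (rx x))^[Fintype.card P - 3] L with hKdef
  have hb2 : K (loc (rx x) (Fintype.card P - 2) L) = 2 := by
    rcases hb with hb | hb
    · exact absurd (hK.inj (by rw [hb, ha])) hne
    · exact hb
  have h2 := hK.one_le z
  by_cases h3 : 3 < K z
  · have := hs z _ hz (by omega)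
    omega
  · by_cases h4 : K z = 1
    · exact hz.1.ne (hK.inj (by rw [h4, ha]))
    · by_cases h5 : K z = 3
      · exact hz.2 (hK.inj (by omega))
      · have : z = loc (rx x) (Fintype.card P - 2) L := hK.inj (by omega)
        exact hba (this ▸ hz)

end dyn

/-! ### Rooted trees -/

section tree
variable {Q : Type*} [Fintype Q] [PartialOrder Q]

lemma tree_chain (hQ : IsRootedTree Q) (a : Q) : ∀ b c, a ≤ b → a ≤ c → b ≤ c ∨ c ≤ b := by
  induction a using (wellFounded_gt (α := Q)).induction with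
  | _ a ih =>
    intro b c hab hac
    rcases hab.eq_or_lt with rfl | hab'
    · exact Or.inl hac
    rcases hac.eq_or_lt with rfl | hac'
    · exact Or.inr hab
    have hna : ¬ IsMax a := fun h => (h.not_lt hab')
    obtain ⟨d, hd, huniq⟩ := hQ.2 a hna
    obtain ⟨d1, hd1, hd1b⟩ := exists_covBy_le_of_lt hab'
    obtain ⟨d2, hd2, hd2c⟩ := exists_covBy_le_of_lt hac'
    rw [huniq d1 hd1] at hd1b
    rw [huniq d2 hd2] at hd2c
    exact ih d hd.lt b c hd1b hd2c

lemma le_root (hQ : IsRootedTree Q) {q : Q} (hq : IsMax q) (a : Q) : a ≤ q := by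
  obtain ⟨m, ham, hm⟩ := (Set.finite_univ (α := Q)).exists_le_maximal (Set.mem_univ a)
  have hm' : IsMax m := fun b hb => hm.2 (Set.mem_univ b) hb
  obtain ⟨r, -, hr⟩ := hQ.1
  rw [hr q hq, ← hr m hm']
  exact ham

end tree

/-! ### Inflations -/

section inflation
variable [Fintype P] [PartialOrder P] [Nonempty P] {Q : Type*} [Fintype Q] [PartialOrder Q]
  {φ : P → Q} {x y : P}

lemma phi_mono (hφ : IsInflation φ) {u v : P} (h : u < v) : φ u ≤ φ v := by
  by_cases he : φ u = φ v
  · exact he.le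
  · exact ((hφ.2.2 u v he).mp h).le

lemma phi_lt (hφ : IsInflation φ) {u v : P} (h : φ u < φ v) : u < v :=
  (hφ.2.2 u v h.ne).mpr h

lemma fibre_min (hφ : IsInflation φ) {m : P} (hm : ∀ u, φ u = φ m → ¬ u < m) {v : P}
    (hv : φ v = φ m) : m ≤ v := by
  obtain ⟨w, hwv, hw⟩ := (Set.toFinite {u : P | φ u = φ m}).exists_le_minimal
    (show v ∈ {u : P | φ u = φ m} from hv)
  have hw1 : φ w = φ m := hw.1
  obtain ⟨m', -, hm'⟩ := hφ.2.1 (φ m)
  have h1 : m = m' := hm' m ⟨rfl, hm⟩
  have h2 : w = m' := hm' w ⟨hw1, fun u hu huw => absurd (hw.2 hu huw.le) (not_le_of_gt huw)⟩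
  rw [h1, ← h2]; exact hwv

/-- the local structure around a tangle -/
structure Bottom (φ : P → Q) (x y : P) : Prop where
  hQ : IsRootedTree Q
  hφ : IsInflation φ
  leaf : ∀ q : Q, IsMin q → ∃! x : P, φ x = q
  xmin : ∀ w, ¬ w < x
  xy : x < y
  only : ∀ z, z < y → z = x

lemma Bottom.phi_x_min (h : Bottom φ x y) : IsMin (φ x) := by
  intro q hq
  by_contra hne
  obtain ⟨u, rfl⟩ := h.hφ.1 q
  exact h.xmin u (phi_lt h.hφ (lt_of_le_not_ge hq hne))

lemma Bottom.fibre_x (h : Bottom φ x y) {v : P} (hv : φ v = φ x) : v = x :=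
  (h.leaf _ h.phi_x_min).unique hv rfl

lemma Bottom.phi_ne (h : Bottom φ x y) : φ y ≠ φ x := fun he => h.xy.ne' (h.fibre_x he)

lemma Bottom.phi_lt (h : Bottom φ x y) : φ x < φ y := (h.hφ.2.2 x y h.phi_ne.symm).mp h.xy

lemma Bottom.le_of_phi_le (h : Bottom φ x y) {v : P} (hvx : v ≠ x) (hv : φ v ≤ φ y) :
    y ≤ v := by
  rcases hv.eq_or_lt with he | hlt
  · refine fibre_min h.hφ ?_ he
    intro u hu huy
    have := h.only u huy
    subst this
    exact h.phi_ne hu.symm
  · exact absurd (h.only v (TangledLeQuasi.phi_lt h.hφ hlt)) hvx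

lemma Bottom.yx (h : Bottom φ x y) : y ≠ x := h.xy.ne'

lemma Bottom.unique {y' : P} (h : Bottom φ x y) (h' : Bottom φ x y') : y' = y := by
  rcases tree_chain h.hQ (φ x) (φ y) (φ y') h.phi_lt.le h'.phi_lt.le with h1 | h1
  · rcases h1.eq_or_lt with h2 | h2
    · exact le_antisymm (h'.le_of_phi_le h.yx h2.le) (h.le_of_phi_le h'.yx h2.ge)
    · exact absurd (h'.only y (TangledLeQuasi.phi_lt h.hφ h2)) h.yx
  · rcases h1.eq_or_lt with h2 | h2
    · exact le_antisymm (h'.le_of_phi_le h.yx h2.ge) (h.le_of_phi_le h'.yx h2.le)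
    · exact absurd (h.only y' (TangledLeQuasi.phi_lt h.hφ h2)) h'.yx

noncomputable def Bq (φ : P → Q) (x : P) (q : Q) : Finset P :=
  Finset.univ.filter (fun v => v ≠ x ∧ φ v ≤ q)

noncomputable def Dq (φ : P → Q) (x : P) (q : Q) : Finset P :=
  Finset.univ.filter (fun v => v ≠ x ∧ φ v < q)

noncomputable def Oq (φ : P → Q) (x y : P) (q : Q) : Finset P :=
  Finset.univ.filter (fun v => v ≠ x ∧ ¬ y ≤ v ∧ ¬ φ v ≤ q)

lemma mem_Bq {q : Q} {v : P} : v ∈ Bq φ x q ↔ v ≠ x ∧ φ v ≤ q := by simp [Bq]

lemma mem_Dq {q : Q} {v : P} : v ∈ Dq φ x q ↔ v ≠ x ∧ φ v < q := by simp [Dq]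

lemma mem_Oq {q : Q} {v : P} : v ∈ Oq φ x y q ↔ v ≠ x ∧ ¬ y ≤ v ∧ ¬ φ v ≤ q := by simp [Oq]

lemma Bottom.isModule (h : Bottom φ x y) {q c : Q} (hqc : q ⋖ c) :
    IsModule x (Dq φ x c) (Bq φ x q) where
  hx := by simp [mem_Dq]
  lower := by
    intro v z hvz hz
    rw [mem_Dq] at hz ⊢
    exact ⟨hvz.2, (phi_mono h.hφ hvz.1).trans_lt hz.2⟩
  auto := by
    intro d hd d' hd' z hz hdz
    rw [mem_Dq] at hd hd' hz
    have hzx : z ≠ x := by
      rintro rfl; exact h.xmin d hdz.1
    have h1 : ¬ φ z < c := fun h1 => hz ⟨hzx, h1⟩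
    have h2 : c ≤ φ z := by
      rcases tree_chain h.hQ (φ d) (φ z) c (phi_mono h.hφ hdz.1) hd.2.le with h3 | h3
      · rcases h3.eq_or_lt with h4 | h4
        · exact h4.ge
        · exact absurd h4 h1
      · exact h3
    exact ⟨TangledLeQuasi.phi_lt h.hφ (hd'.2.trans_le h2), hd'.1⟩
  sub := by
    intro v hv
    rw [mem_Bq] at hv
    rw [mem_Dq]
    exact ⟨hv.1, hv.2.trans_lt hqc.lt⟩
  sep := by
    intro v hv z hz
    rw [Finset.mem_sdiff, mem_Dq, mem_Bq] at hz
    rw [mem_Bq] at hv
    have hzq : ¬ φ z ≤ q := fun h1 => hz.2 ⟨hz.1.1, h1⟩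
    constructor
    · intro h1
      rcases tree_chain h.hQ (φ v) (φ z) q (phi_mono h.hφ h1.1) hv.2 with h3 | h3
      · exact hzq h3
      · rcases h3.eq_or_lt with h4 | h4
        · exact hzq h4.ge
        · exact hqc.2 h4 hz.1.2
    · intro h1
      exact hzq ((phi_mono h.hφ h1.1).trans hv.2)

lemma NN_disj_right {t₁ t₂ : ℕ} {S A B : Finset P} (h : Disjoint A B) :
    (NN x t₁ t₂ S (A ∪ B)).card = (NN x t₁ t₂ S A).card + (NN x t₁ t₂ S B).card := by
  rw [← Finset.card_union_of_disjoint]
  · congr 1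
    ext L
    simp only [NN, Finset.mem_union, Finset.mem_filter]
    tauto
  · rw [Finset.disjoint_left]
    intro L h1 h2
    simp only [NN, Finset.mem_filter] at h1 h2
    exact Finset.disjoint_left.mp h h1.2.2.2 h2.2.2.2

lemma NN_disj_left {t₁ t₂ : ℕ} {S A B : Finset P} (h : Disjoint A B) :
    (NN x t₁ t₂ (A ∪ B) S).card = (NN x t₁ t₂ A S).card + (NN x t₁ t₂ B S).card := by
  rw [← Finset.card_union_of_disjoint]
  · congr 1
    ext L
    simp only [NN, Finset.mem_union, Finset.mem_filter]
    tauto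
  · rw [Finset.disjoint_left]
    intro L h1 h2
    simp only [NN, Finset.mem_filter] at h1 h2
    exact Finset.disjoint_left.mp h h1.2.2.1 h2.2.2.1

lemma Bottom.Oq_eq (h : Bottom φ x y) {q c : Q} (hy : φ y ≤ q) (hqc : q ⋖ c) :
    Oq φ x y q = Oq φ x y c ∪ (Dq φ x c \ Bq φ x q) := by
  ext v
  rw [Finset.mem_union, Finset.mem_sdiff, mem_Oq, mem_Oq, mem_Dq, mem_Bq]
  constructor
  · rintro ⟨h1, h2, h3⟩
    by_cases h4 : φ v ≤ c
    · right
      refine ⟨⟨h1, lt_of_le_of_ne h4 ?_⟩, fun h5 => h3 h5.2⟩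
      intro h5
      exact h2 (TangledLeQuasi.phi_lt h.hφ (h5 ▸ (hy.trans_lt hqc.lt))).le
    · exact Or.inl ⟨h1, h2, h4⟩
  · rintro (⟨h1, h2, h3⟩ | ⟨⟨h1, h2⟩, h3⟩)
    · exact ⟨h1, h2, fun h4 => h3 (h4.trans hqc.le)⟩
    · have h4 : ¬ φ v ≤ q := fun h4 => h3 ⟨h1, h4⟩
      refine ⟨h1, ?_, h4⟩
      intro h5
      have h6 : φ y ≤ φ v := by
        rcases h5.eq_or_lt with rfl | h5
        · exact le_refl _
        · exact phi_mono h.hφ h5
      rcases tree_chain h.hQ (φ y) (φ v) q h6 hy with h7 | h7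
      · exact h4 h7
      · rcases h7.eq_or_lt with h8 | h8
        · exact h4 h8.ge
        · exact hqc.2 h8 h2

lemma Oq_disjoint {c : Q} : Disjoint (Oq φ x y c) (Dq φ x c) := by
  rw [Finset.disjoint_left]
  intro v h1 h2
  rw [mem_Oq] at h1
  rw [mem_Dq] at h2
  exact h1.2.2 h2.2.le

lemma Bottom.NN_OB (h : Bottom φ x y) (hn : 3 ≤ Fintype.card P) {c : Q} (hc : φ y < c) :
    NN x (Fintype.card P - 3) (Fintype.card P - 2) (Oq φ x y c) (Bq φ x c) =
      NN x (Fintype.card P - 3) (Fintype.card P - 2) (Oq φ x y c) (Dq φ x c) := by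
  apply Finset.filter_congr
  intro L hL
  rw [mem_Lab] at hL
  refine and_congr_right fun h1 => and_congr_right fun h2 => ?_
  rw [mem_Bq, mem_Dq]
  refine and_congr_right fun h3 => ?_
  constructor
  · intro h4
    refine lt_of_le_of_ne h4 ?_
    intro h5
    exact loc_min₂ h.xmin hL h1 (by omega) y
      ⟨TangledLeQuasi.phi_lt h.hφ (by rw [h5]; exact hc), h.yx⟩
  · exact fun h4 => h4.le

lemma Bottom.NN_BO (h : Bottom φ x y) (hn : 3 ≤ Fintype.card P) {c : Q} (hc : φ y < c) :
    NN x (Fintype.card P - 3) (Fintype.card P - 2) (Bq φ x c) (Oq φ x y c) =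
      NN x (Fintype.card P - 3) (Fintype.card P - 2) (Dq φ x c) (Oq φ x y c) := by
  apply Finset.filter_congr
  intro L hL
  rw [mem_Lab] at hL
  refine and_congr_right fun h1 => and_congr_left fun h2 => ?_
  rw [mem_Bq, mem_Dq]
  rw [mem_Oq] at h2
  refine and_congr_right fun h3 => ?_
  constructor
  · intro h4
    refine lt_of_le_of_ne h4 ?_
    intro h5
    refine loc_min₃ h.xmin hL h1 hn ?_ ?_ y
      ⟨TangledLeQuasi.phi_lt h.hφ (by rw [h5]; exact hc), h.yx⟩
    · intro h6
      rw [h6] at h2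
      exact h2.2.2 h4
    · intro h6
      exact h2.2.2 ((phi_mono h.hφ h6.1).trans h4)
  · exact fun h4 => h4.le

lemma Bottom.main (h : Bottom φ x y) (hn : 3 ≤ Fintype.card P) (q : Q) : φ y ≤ q →
    (NN x (Fintype.card P - 3) (Fintype.card P - 2) (Oq φ x y q) (Bq φ x q)).card =
      (NN x (Fintype.card P - 3) (Fintype.card P - 2) (Bq φ x q) (Oq φ x y q)).card := by
  induction q using (wellFounded_gt (α := Q)).induction with
  | _ q ih =>
    intro hy
    by_cases hmax : IsMax q
    · have hO : Oq φ x y q = ∅ := by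
        ext v
        simp only [mem_Oq, Finset.notMem_empty, iff_false]
        rintro ⟨-, -, h3⟩
        exact h3 (le_root h.hQ hmax _)
      simp [NN, hO]
    · obtain ⟨c, hqc, -⟩ := h.hQ.2 q hmax
      have hm := h.isModule hqc
      have hyc : φ y < c := hy.trans_lt hqc.lt
      have hIH := ih c hqc.lt hyc.le
      have hdisj : Disjoint (Oq φ x y c) (Dq φ x c \ Bq φ x q) :=
        Finset.disjoint_of_subset_right Finset.sdiff_subset Oq_disjoint
      rw [h.Oq_eq hy hqc, NN_disj_left hdisj, NN_disj_right hdisj, hm.fork]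
      have h2 := hm.unif₂ (O := Oq φ x y c) Oq_disjoint (Fintype.card P - 3)
        (Fintype.card P - 2)
      have h1 := hm.unif₁ (O := Oq φ x y c) Oq_disjoint (Fintype.card P - 3)
        (Fintype.card P - 2)
      rw [h.NN_OB hn hyc, h.NN_BO hn hyc] at hIH
      have hpos : 0 < (Dq φ x c).card :=
        Finset.card_pos.mpr ⟨y, mem_Dq.mpr ⟨h.yx, hyc⟩⟩
      have h3 : (NN x (Fintype.card P - 3) (Fintype.card P - 2) (Oq φ x y c)
          (Bq φ x q)).card = (NN x (Fintype.card P - 3) (Fintype.card P - 2) (Bq φ x q)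
          (Oq φ x y c)).card := by
        apply Nat.eq_of_mul_eq_mul_right hpos
        rw [h2, h1, hIH]
      rw [h3]

noncomputable def TT (x y : P) : Finset (P → ℕ) :=
  (Lab P).filter (fun L => L x = Fintype.card P ∧ loc (rx x) (Fintype.card P - 2) L = y)

noncomputable def QQ (x y : P) : Finset (P → ℕ) :=
  (Lab P).filter (fun L => L x = Fintype.card P ∧ y ≤ loc (rx x) (Fintype.card P - 3) L)

lemma Bottom.TT_le (h : Bottom φ x y) (hn : 3 ≤ Fintype.card P) :
    (TT x y).card ≤ (QQ x y).card := by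
  have h1 : TT x y \ QQ x y ⊆ NN x (Fintype.card P - 3) (Fintype.card P - 2)
      (Oq φ x y (φ y)) (Bq φ x (φ y)) := by
    intro L hL
    simp only [TT, QQ, NN, Finset.mem_sdiff, Finset.mem_filter, mem_Lab, mem_Oq, mem_Bq]
      at hL ⊢
    obtain ⟨⟨hL, h1, h2⟩, h3⟩ := hL
    have h4 : ¬ y ≤ loc (rx x) (Fintype.card P - 3) L := fun h4 => h3 ⟨hL, h1, h4⟩
    have h5 : loc (rx x) (Fintype.card P - 3) L ≠ x := by
      intro h5
      have h6 := loc_spec (good_rx x) hL (Fintype.card P - 3)
      rw [h5, iter_x h.xmin hL h1 (by omega)] at h6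
      omega
    exact ⟨hL, h1, ⟨h5, h4, fun h6 => h4 (h.le_of_phi_le h5 h6)⟩,
      by rw [h2]; exact ⟨h.yx, le_refl _⟩⟩
  have h2 : NN x (Fintype.card P - 3) (Fintype.card P - 2)
      (Bq φ x (φ y)) (Oq φ x y (φ y)) ⊆ QQ x y \ TT x y := by
    intro L hL
    simp only [TT, QQ, NN, Finset.mem_sdiff, Finset.mem_filter, mem_Lab, mem_Oq, mem_Bq]
      at hL ⊢
    obtain ⟨hL, h1, h2, h3⟩ := hL
    refine ⟨⟨hL, h1, h.le_of_phi_le h2.1 h2.2⟩, ?_⟩
    rintro ⟨-, -, h4⟩
    rw [h4] at h3
    exact h3.2.1 (le_refl _)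
  have h3 := Finset.card_le_card h1
  have h4 := Finset.card_le_card h2
  have h5 := h.main hn (φ y) (le_refl _)
  have h6 := Finset.card_sdiff_add_card_inter (TT x y) (QQ x y)
  have h7 := Finset.card_sdiff_add_card_inter (QQ x y) (TT x y)
  rw [Finset.inter_comm] at h7
  omega

end inflation

/-! ### Exchanging the two top labels -/

section exch
variable [Fintype P] [PartialOrder P] [Nonempty P] {x : P}

/-- exchange the labels `k` and `k + 1` -/
def sg (k : ℕ) (m : ℕ) : ℕ := if m = k then k + 1 else if m = k + 1 then k else m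

lemma sg_sg (k m : ℕ) : sg k (sg k m) = m := by
  unfold sg; split_ifs <;> omega

lemma sg_labeling {L : P → ℕ} (hL : IsLabeling L) {k : ℕ} (h1 : 1 ≤ k)
    (h2 : k + 1 ≤ Fintype.card P) : IsLabeling (sg k ∘ L) := by
  refine ⟨?_, ?_, ?_⟩
  · intro v _
    have a1 := hL.one_le v
    have a2 := hL.le_card v
    simp only [Function.comp, Set.mem_Icc, sg]
    split_ifs <;> omega
  · intro v _ w _ hvw
    apply hL.inj
    rw [← sg_sg k (L v), ← sg_sg k (L w)]
    simp only [Function.comp] at hvw
    rw [hvw]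
  · intro m hm
    obtain ⟨h3, h4⟩ := hm
    obtain ⟨v, hv⟩ := hL.exists_eq (k := sg k m) (by unfold sg; split_ifs <;> omega)
      (by unfold sg; split_ifs <;> omega)
    exact ⟨v, Set.mem_univ _, by simp only [Function.comp, hv, sg_sg]⟩

lemma slides_sg (hx : ∀ w, ¬ w < x) {k : ℕ} (hk : 2 ≤ k) {L M : P → ℕ}
    (h : Slides (· < ·) L M) :
    IsLabeling L → L x = k + 1 → Slides (· < ·) (sg k ∘ L) (sg k ∘ M) := by
  induction h with
  | @stop L v hv hmax =>
    intro _ _
    refine .stop (v := v) ?_ hmax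
    simp only [Function.comp, hv, sg]
    rw [if_neg (by omega), if_neg (by omega)]
  | @step L M v z hv hz hmin h ih =>
    intro hL hx1
    have hvx : x ≠ v := by rintro rfl; omega
    have hzx : x ≠ z := by rintro rfl; exact hx v hz
    refine .step (v := v) (z := z) ?_ hz ?_ ?_
    · simp only [Function.comp, hv, sg]
      rw [if_neg (by omega), if_neg (by omega)]
    · intro w hw
      have hwx : x ≠ w := by rintro rfl; exact hx v hw
      have h1 : L z ≠ k + 1 := fun h1 => hzx (hL.inj (by rw [hx1, h1]))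
      have h2 : L w ≠ k + 1 := fun h2 => hwx (hL.inj (by rw [hx1, h2]))
      have h3 := hmin w hw
      simp only [Function.comp, sg]
      split_ifs <;> omega
    · exact ih (hL.comp _) (by rw [swap_apply_other hvx hzx]; exact hx1)

lemma shift_sg {M : P → ℕ} (hM : IsLabeling M) {k : ℕ} (h1 : 1 ≤ k)
    (h2 : k + 2 ≤ Fintype.card P) : shift (sg (k + 1) ∘ M) = sg k ∘ shift M := by
  funext v
  have a1 := hM.one_le v
  have a2 := hM.le_card v
  simp only [Function.comp, shift, sg]
  split_ifs <;> omega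

lemma iter_sg (hx : ∀ w, ¬ w < x) {L : P → ℕ} (hL : IsLabeling L)
    (h1 : L x = Fintype.card P) {t : ℕ} (ht : t + 2 ≤ Fintype.card P) :
    (promR (· < ·))^[t] (sg (Fintype.card P - 1) ∘ L) =
      sg (Fintype.card P - 1 - t) ∘ (promR (· < ·))^[t] L := by
  induction t with
  | zero => rfl
  | succ t ih =>
    rw [Function.iterate_succ_apply', Function.iterate_succ_apply', ih (by omega)]
    have hK := iter_labeling (good_lt (P := P)) hL t
    obtain ⟨M, hM, he⟩ := exists_slides (good_lt (P := P)) hK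
    have hxK : (promR (· < ·))^[t] L x = (Fintype.card P - 1 - t) + 1 := by
      rw [iter_lt_eq hx hL h1 (by omega), iter_x hx hL h1 (by omega)]
      omega
    have h2 := slides_sg hx (k := Fintype.card P - 1 - t) (by omega) hM hK hxK
    rw [promR_eq_shift good_lt h2 (sg_labeling hK (by omega) (by omega)), he]
    obtain ⟨k, hk⟩ : ∃ k, Fintype.card P - 1 - t = k + 1 := ⟨Fintype.card P - 2 - t, by omega⟩
    have hk' : Fintype.card P - 1 - (t + 1) = k := by omega
    rw [hk, hk']
    exact shift_sg (hM.labeling hK) (by omega) (by omega)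

lemma promotion_fun : (promotion : (P → ℕ) → P → ℕ) = promR (· < ·) := rfl

lemma linExt_succ {L : P → ℕ} (hL : IsLabeling L) (h : IsLinExt L) :
    IsLinExt (promR (· < ·) L) := by
  have h1 : SortedAbove (· < ·) 0 L := fun a b hab _ => h a b hab
  have h2 := promR_sorted (good_lt (P := P)) hL h1
  intro a b hab
  exact h2 a b hab (by
    have := (promR_labeling (good_lt (P := P)) hL).one_le a
    omega)

lemma linExt_mono {L : P → ℕ} (hL : IsLabeling L) {s t : ℕ} (hst : s ≤ t)
    (h : IsLinExt ((promR (· < ·))^[s] L)) : IsLinExt ((promR (· < ·))^[t] L) := by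
  induction t, hst using Nat.le_induction with
  | base => exact h
  | succ t _ ih =>
    rw [Function.iterate_succ_apply']
    exact linExt_succ (iter_labeling (good_lt (P := P)) hL t) ih

lemma sortingTime_sg (hx : ∀ w, ¬ w < x) {L : P → ℕ} (hL : IsLabeling L)
    (h1 : L x = Fintype.card P) (hn : 2 ≤ Fintype.card P)
    (h : 3 ≤ Fintype.card P → ∃ a, x < a ∧ (promR (· < ·))^[Fintype.card P - 3] L a = 1) :
    sortingTime (sg (Fintype.card P - 1) ∘ L) = Fintype.card P - 2 := by
  have hL' : IsLabeling (sg (Fintype.card P - 1) ∘ L) := sg_labeling hL (by omega) (by omega)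
  have hlin : IsLinExt ((promR (· < ·))^[Fintype.card P - 2] (sg (Fintype.card P - 1) ∘ L)) := by
    have hK := iter_labeling (good_lt (P := P)) hL' (Fintype.card P - 2)
    have hs := iter_sorted (good_lt (P := P)) hL' (Fintype.card P - 2)
    have hxK : (promR (· < ·))^[Fintype.card P - 2] (sg (Fintype.card P - 1) ∘ L) x = 1 := by
      rw [iter_sg hx hL h1 (by omega)]
      have h2 : (promR (· < ·))^[Fintype.card P - 2] L x = 2 := by
        rw [iter_lt_eq hx hL h1 (by omega), iter_x hx hL h1 (by omega)]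
        omega
      have h3 : Fintype.card P - 1 - (Fintype.card P - 2) = 1 := by omega
      simp only [Function.comp, h2, h3, sg]
      simp
    set K := (promR (· < ·))^[Fintype.card P - 2] (sg (Fintype.card P - 1) ∘ L) with hKdef
    intro a b hab
    have ha := hK.one_le a
    have hb := hK.one_le b
    have hne : K a ≠ K b := fun h => hab.ne (hK.inj h)
    have hbx : K b ≠ 1 := by
      intro h4
      have : b = x := hK.inj (by rw [h4, hxK])
      subst this
      exact hx a hab
    by_cases h5 : 2 < K a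
    · exact hs a b hab (by omega)
    · omega
  unfold sortingTime
  rw [promotion_fun]
  apply le_antisymm
  · exact Nat.sInf_le hlin
  · apply le_csInf ⟨_, hlin⟩
    intro t ht
    by_contra hlt
    push Not at hlt
    have hn3 : 3 ≤ Fintype.card P := by omega
    obtain ⟨a, hxa, ha⟩ := h hn3
    have h2 := linExt_mono hL' (s := t) (t := Fintype.card P - 3) (by omega) ht
    have h3 := h2 x a hxa
    rw [iter_sg hx hL h1 (by omega)] at h3
    have h4 : (promR (· < ·))^[Fintype.card P - 3] L x = 3 := by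
      rw [iter_lt_eq hx hL h1 (by omega), iter_x hx hL h1 (by omega)]
      omega
    have h5 : Fintype.card P - 1 - (Fintype.card P - 3) = 2 := by omega
    simp only [Function.comp, h4, ha, h5, sg] at h3
    simp at h3

/-- the structure of tangled labelings -/
lemma tangled_structure {L : P → ℕ} (hL : IsLabeling L) (hn : 2 ≤ Fintype.card P)
    (h : sortingTime L = Fintype.card P - 1) :
    ∃ a b, a < b ∧ (∀ w, ¬ w < a) ∧ (∀ z, z < b → z = a) ∧ L a = Fintype.card P ∧
      (promR (· < ·))^[Fintype.card P - 2] L b = 1 := by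
  have hnot : ¬ IsLinExt ((promR (· < ·))^[Fintype.card P - 2] L) := by
    have h1 : Fintype.card P - 2 ∉ {k | IsLinExt (promotion^[k] L)} := by
      apply Nat.notMem_of_lt_sInf
      unfold sortingTime at h
      omega
    exact h1
  have hK := iter_labeling (good_lt (P := P)) hL (Fintype.card P - 2)
  have hs := iter_sorted (good_lt (P := P)) hL (Fintype.card P - 2)
  have hex : ∃ a b, a < b ∧ (promR (· < ·))^[Fintype.card P - 2] L b ≤
      (promR (· < ·))^[Fintype.card P - 2] L a := by
    by_contra hcon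
    push Not at hcon
    exact hnot hcon
  obtain ⟨a, b, hab, hle⟩ := hex
  have ha1 := hK.one_le a
  have hb1 := hK.one_le b
  have hne : (promR (· < ·))^[Fintype.card P - 2] L a ≠
      (promR (· < ·))^[Fintype.card P - 2] L b := fun h => hab.ne (hK.inj h)
  have ha2 : (promR (· < ·))^[Fintype.card P - 2] L a = 2 := by
    by_contra h2
    have := hs a b hab (by omega)
    omega
  have hb2 : (promR (· < ·))^[Fintype.card P - 2] L b = 1 := by omega
  have hkey : ∀ w, (promR (· < ·))^[Fintype.card P - 2] L w ≤ 2 → w = a ∨ w = b := by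
    intro w hw
    have hw1 := hK.one_le w
    by_cases h3 : (promR (· < ·))^[Fintype.card P - 2] L w = 1
    · exact Or.inr (hK.inj (by rw [h3, hb2]))
    · exact Or.inl (hK.inj (by omega))
  have hamin : ∀ w, ¬ w < a := by
    intro w hwa
    by_cases h3 : 2 < (promR (· < ·))^[Fintype.card P - 2] L w
    · have := hs w a hwa (by omega)
      omega
    · rcases hkey w (by omega) with rfl | rfl
      · exact lt_irrefl _ hwa
      · exact lt_asymm hwa hab
  have honly : ∀ z, z < b → z = a := by
    intro z hzb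
    by_cases h3 : 2 < (promR (· < ·))^[Fintype.card P - 2] L z
    · have := hs z b hzb (by omega)
      omega
    · rcases hkey z (by omega) with rfl | rfl
      · rfl
      · exact absurd hzb (lt_irrefl _)
  refine ⟨a, b, hab, hamin, honly, ?_, hb2⟩
  have hback : ∀ j, j + 2 ≤ Fintype.card P → ∃ b', a < b' ∧
      (promR (· < ·))^[Fintype.card P - 2 - j] L b' <
        (promR (· < ·))^[Fintype.card P - 2 - j] L a ∧
      (promR (· < ·))^[Fintype.card P - 2 - j] L a = 2 + j := by
    intro j
    induction j with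
    | zero =>
      intro _
      exact ⟨b, hab, by simp only [Nat.sub_zero]; omega, by simpa using ha2⟩
    | succ j ih =>
      intro hj
      obtain ⟨b', hab', h1, h2⟩ := ih (by omega)
      have hs1 : Fintype.card P - 2 - j = (Fintype.card P - 2 - (j + 1)) + 1 := by omega
      have hK' := iter_labeling (good_lt (P := P)) hL (Fintype.card P - 2 - (j + 1))
      obtain ⟨M, hM, he⟩ := exists_slides (good_lt (P := P)) hK'
      rw [hs1, Function.iterate_succ_apply', he] at h1 h2
      have hML := hM.labeling hK'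
      have hMa := hML.one_le a
      have hMb := hML.one_le b'
      have hMa' : M a = 3 + j := by
        unfold shift at h2
        split_ifs at h2 with h3 <;> omega
      have hMb' : M b' ≠ 1 ∧ M b' < 3 + j := by
        rw [h2] at h1
        unfold shift at h1
        split_ifs at h1 with h3
        · omega
        · exact ⟨h3, by omega⟩
      obtain ⟨b'', hb'', hb3⟩ := hM.source (good_lt (P := P)) b' hMb'.1
      have hab'' : a < b'' := by
        rcases hb'' with rfl | hb''
        · exact hab'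
        · exact hab'.trans hb''
      have h5 := hM.min_eq (good_lt (P := P)) hK' hamin hab'' (by omega)
      exact ⟨b'', hab'', by omega, by omega⟩
  obtain ⟨b', -, -, h3⟩ := hback (Fintype.card P - 2) (by omega)
  rw [Nat.sub_self] at h3
  simp only [Function.iterate_zero, id] at h3
  omega

end exch

/-! ### The theorem -/

section final
variable [Fintype P] [PartialOrder P] [Nonempty P]

/-- labelings with a given sorting time and a given label at `x` -/
noncomputable def Fib (x : P) (k s : ℕ) : Finset (P → ℕ) :=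
  (Lab P).filter (fun L => sortingTime L = s ∧ L x = k)

lemma mem_Fib {x : P} {k s : ℕ} {L : P → ℕ} :
    L ∈ Fib x k s ↔ IsLabeling L ∧ sortingTime L = s ∧ L x = k := by
  simp [Fib, mem_Lab]

lemma card_le_of_sg {x : P} {k s : ℕ} {A : Finset (P → ℕ)}
    (hA : ∀ L ∈ A, sg (Fintype.card P - 1) ∘ L ∈ Fib x k s) : A.card ≤ (Fib x k s).card := by
  apply Finset.card_le_card_of_injOn (fun L => sg (Fintype.card P - 1) ∘ L) hA
  intro L₁ _ L₂ _ h
  funext v
  have h1 := congrFun h v
  simp only [Function.comp] at h1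
  rw [← sg_sg (Fintype.card P - 1) (L₁ v), h1, sg_sg]

lemma fib_le (hP : IsInflatedRootedTree P) (hn : 2 ≤ Fintype.card P) (x : P) :
    (Fib x (Fintype.card P) (Fintype.card P - 1)).card ≤
      (Fib x (Fintype.card P - 1) (Fintype.card P - 2)).card := by
  obtain ⟨Q, hQf, hQo, φ, hQ, hφ, hleaf⟩ := hP
  by_cases hemp : Fib x (Fintype.card P) (Fintype.card P - 1) = ∅
  · rw [hemp]; simp
  obtain ⟨L₀, hL₀⟩ := Finset.nonempty_iff_ne_empty.mpr hemp
  have hstr : ∀ L ∈ Fib x (Fintype.card P) (Fintype.card P - 1), ∃ b, Bottom φ x b ∧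
      (promR (· < ·))^[Fintype.card P - 2] L b = 1 := by
    intro L hL
    rw [mem_Fib] at hL
    obtain ⟨a, b, hab, hamin, honly, haL, hb⟩ := tangled_structure hL.1 hn hL.2.1
    have hax : a = x := hL.1.inj (by rw [haL, hL.2.2])
    subst hax
    exact ⟨b, ⟨hQ, hφ, hleaf, hamin, hab, honly⟩, hb⟩
  obtain ⟨y, hy, -⟩ := hstr L₀ hL₀
  have hsx : ∀ L, IsLabeling L → L x = Fintype.card P →
      (sg (Fintype.card P - 1) ∘ L) x = Fintype.card P - 1 := by
    intro L _ h1
    simp only [Function.comp, h1, sg]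
    rw [if_neg (by omega), if_pos (by omega)]
  by_cases hn3 : 3 ≤ Fintype.card P
  · have h1 : Fib x (Fintype.card P) (Fintype.card P - 1) ⊆ TT x y := by
      intro L hL
      obtain ⟨b, hb, hb1⟩ := hstr L hL
      have hby : b = y := hy.unique hb
      subst hby
      rw [mem_Fib] at hL
      simp only [TT, Finset.mem_filter, mem_Lab]
      refine ⟨hL.1, hL.2.2, loc_eq (good_rx x) hL.1 ?_⟩
      rw [← iter_lt_eq hy.xmin hL.1 hL.2.2 (by omega)]
      exact hb1
    have h2 : (QQ x y).card ≤ (Fib x (Fintype.card P - 1) (Fintype.card P - 2)).card := by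
      apply card_le_of_sg
      intro L hL
      simp only [QQ, Finset.mem_filter, mem_Lab] at hL
      obtain ⟨hL, hLx, hyl⟩ := hL
      rw [mem_Fib]
      refine ⟨sg_labeling hL (by omega) (by omega), ?_, hsx L hL hLx⟩
      apply sortingTime_sg hy.xmin hL hLx hn
      intro _
      refine ⟨loc (rx x) (Fintype.card P - 3) L, hy.xy.trans_le hyl, ?_⟩
      rw [iter_lt_eq hy.xmin hL hLx (by omega)]
      exact loc_spec (good_rx x) hL _
    exact (Finset.card_le_card h1).trans ((hy.TT_le hn3).trans h2)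
  · apply card_le_of_sg
    intro L hL
    rw [mem_Fib] at hL ⊢
    refine ⟨sg_labeling hL.1 (by omega) (by omega), ?_, hsx L hL.1 hL.2.2⟩
    exact sortingTime_sg hy.xmin hL.1 hL.2.2 hn (fun h => absurd h hn3)

lemma card_fib_sum {k s : ℕ} (h1 : 1 ≤ k) (h2 : k ≤ Fintype.card P) :
    ((Lab P).filter (fun L => sortingTime L = s)).card = ∑ x : P, (Fib x k s).card := by
  rw [Finset.card_eq_sum_card_fiberwise (f := fun L => Function.invFun L k)
    (t := Finset.univ) (fun _ _ => Finset.mem_coe.mpr (Finset.mem_univ _))]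
  apply Finset.sum_congr rfl
  intro x _
  congr 1
  ext L
  simp only [Finset.mem_filter, mem_Lab, mem_Fib, and_assoc]
  refine and_congr_right fun hL => and_congr_right fun _ => ?_
  have h3 : L (Function.invFun L k) = k := Function.invFun_eq (hL.exists_eq h1 h2)
  constructor
  · intro h4; rw [← h4]; exact h3
  · intro h4; exact hL.inj (by rw [h3, h4])

end final

/-- **Main theorem.**  For every inflated rooted tree poset `P` with deflated leaves and at
least two elements, the number of tangled labelings (sorting time `n - 1`) is at most the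
number of quasi-tangled labelings (sorting time `n - 2`), where `n = |P|`. -/
theorem result : ∀ (P : Type) [Fintype P] [PartialOrder P], 2 ≤ Fintype.card P →
    IsInflatedRootedTree P →
    {L : P → ℕ | IsLabeling L ∧ sortingTime L = Fintype.card P - 1}.ncard ≤
      {L : P → ℕ | IsLabeling L ∧ sortingTime L = Fintype.card P - 2}.ncard := by
  intro P _ _ hn hP
  have : Nonempty P := Fintype.card_pos_iff.mp (by omega)
  have hset : ∀ s : ℕ, {L : P → ℕ | IsLabeling L ∧ sortingTime L = s}.ncard =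
      ((Lab P).filter (fun L => sortingTime L = s)).card := by
    intro s
    rw [← Set.ncard_coe_finset]
    congr 1
    ext L
    simp [mem_Lab]
  rw [hset, hset, card_fib_sum (k := Fintype.card P) (by omega) le_rfl,
    card_fib_sum (k := Fintype.card P - 1) (by omega) (by omega)]
  exact Finset.sum_le_sum fun x _ => fib_le hP hn x

end Pool.Agent.Results.MP_0963f7_co.TangledLeQuasi
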